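import Mathlib
import Pool.Agent.H153R4.Pl
set_option autoImplicit false

/-! Second and fourth moments of the extension operator for fixed time. -/

namespace Pool.Agent.H153R4

open Complex MeasureTheory Set
open scoped ENNReal FourierTransform ComplexConjugate Convolution RealInnerProductSpace

/-- Euclidean space -/
abbrev E (n : ℕ) := EuclideanSpace ℝ (Fin n)

/-- the cube -/
def cube (n : ℕ) : Set (E n) := {z | ∀ j, |z j| ≤ 1}

lemma cube_closed (n : ℕ) : IsClosed (cube n) := by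
  unfold cube
  rw [setOf_forall]
  refine isClosed_iInter fun j => isClosed_le ?_ continuous_const
  fun_prop

lemma cube_meas (n : ℕ) : MeasurableSet (cube n) := (cube_closed n).measurableSet

lemma cube_vol (n : ℕ) : volume (cube n) < ⊤ := by
  have h : cube n ⊆ Metric.closedBall 0 (Real.sqrt n) := by
    intro z hz
    rw [mem_closedBall_zero_iff, EuclideanSpace.norm_eq]
    apply Real.sqrt_le_sqrt
    calc ∑ i, ‖z i‖ ^ 2 ≤ ∑ i : Fin n, (1 : ℝ) := by
          apply Finset.sum_le_sum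
          intro i _
          rw [Real.norm_eq_abs]
          have := hz i
          have := abs_nonneg (z i)
          nlinarith
      _ = n := by simp
  exact (measure_mono h).trans_lt measure_closedBall_lt_top

/-- bounded measurable functions supported in the cube -/
structure BS {n : ℕ} (M : ℝ) (g : E n → ℂ) : Prop where
  meas : Measurable g
  bd : ∀ z, ‖g z‖ ≤ M
  supp : ∀ z, z ∉ cube n → g z = 0

variable {n : ℕ}

lemma BS.M0 {M : ℝ} {g : E n → ℂ} (hg : BS M g) : 0 ≤ M := (norm_nonneg _).trans (hg.bd 0)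

lemma BS.ind {M : ℝ} {g : E n → ℂ} (hg : BS M g) : (cube n).indicator g = g := by
  ext z
  by_cases hz : z ∈ cube n
  · rw [indicator_of_mem hz]
  · rw [indicator_of_notMem hz, hg.supp z hz]

lemma BS.memLp {M : ℝ} {g : E n → ℂ} (hg : BS M g) (p : ℝ≥0∞) : MemLp g p volume := by
  rw [← hg.ind, memLp_indicator_iff_restrict (cube_meas n)]
  have : IsFiniteMeasure (volume.restrict (cube n)) :=
    ⟨by rw [Measure.restrict_apply_univ]; exact cube_vol n⟩
  exact MemLp.of_bound hg.meas.aestronglyMeasurable M (ae_of_all _ hg.bd)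

lemma BS.int {M : ℝ} {g : E n → ℂ} (hg : BS M g) : Integrable g :=
  memLp_one_iff_integrable.1 (hg.memLp 1)

lemma BS.l2 {M : ℝ} {g : E n → ℂ} (hg : BS M g) :
    ∫⁻ z, ‖g z‖ₑ ^ 2 ≤ volume (cube n) * ENNReal.ofReal (M ^ 2) := by
  have h1 : ∀ z, ‖g z‖ₑ ^ 2 ≤ (cube n).indicator (fun _ => ENNReal.ofReal (M ^ 2)) z := by
    intro z
    by_cases hz : z ∈ cube n
    · rw [indicator_of_mem hz, ENNReal.ofReal_pow hg.M0]
      gcongr
      rw [← ofReal_norm]
      exact ENNReal.ofReal_le_ofReal (hg.bd z)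
    · rw [indicator_of_notMem hz, hg.supp z hz]
      simp
  refine (lintegral_mono h1).trans (le_of_eq ?_)
  rw [lintegral_indicator (cube_meas n), lintegral_const, Measure.restrict_apply_univ, mul_comm]

lemma BS.fbd {M : ℝ} {g : E n → ℂ} (hg : BS M g) (x : E n) :
    ‖𝓕 g x‖ ≤ (volume (cube n)).toReal * M := by
  rw [Real.fourier_eq]
  have h1 : (fun v => Real.fourierChar (-⟪v, x⟫) • g v) =
      (cube n).indicator (fun v => Real.fourierChar (-⟪v, x⟫) • g v) := by
    ext z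
    by_cases hz : z ∈ cube n
    · rw [indicator_of_mem hz]
    · rw [indicator_of_notMem hz, hg.supp z hz, smul_zero]
  rw [h1, integral_indicator (cube_meas n)]
  refine (norm_setIntegral_le_of_norm_le_const (C := M) (cube_vol n) (fun s _ => ?_)).trans ?_
  · rw [Circle.norm_smul]
    exact hg.bd s
  · rw [mul_comm]
    rfl

/-- the chirp -/
noncomputable def ch (s : Fin n → ℝ) (g : E n → ℂ) (z : E n) : ℂ :=
  cexp (((-(2 * Real.pi * ∑ j, s j * z j ^ 2) : ℝ) : ℂ) * I) * g z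

lemma ch_norm (s : Fin n → ℝ) (g : E n → ℂ) (z : E n) : ‖ch s g z‖ = ‖g z‖ := by
  unfold ch
  rw [norm_mul, Complex.norm_exp_ofReal_mul_I, one_mul]

lemma ch_enorm (s : Fin n → ℝ) (g : E n → ℂ) (z : E n) : ‖ch s g z‖ₑ = ‖g z‖ₑ := by
  rw [← ofReal_norm, ← ofReal_norm, ch_norm]

lemma BS.ch {M : ℝ} {g : E n → ℂ} (hg : BS M g) (s : Fin n → ℝ) : BS M (ch s g) := by
  refine ⟨?_, fun z => ?_, fun z hz => ?_⟩
  · unfold H153R4.ch
    exact (by fun_prop : Measurable fun z : E n =>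
      cexp (((-(2 * Real.pi * ∑ j, s j * z j ^ 2) : ℝ) : ℂ) * I)).mul hg.meas
  · rw [ch_norm]
    exact hg.bd z
  · unfold H153R4.ch
    rw [hg.supp z hz, mul_zero]

/-- products `g (z + h) * conj (g z)` -/
noncomputable def kk (g : E n → ℂ) (h z : E n) : ℂ := g (z + h) * conj (g z)

lemma BS.kk {M : ℝ} {g : E n → ℂ} (hg : BS M g) (h : E n) : BS (M ^ 2) (kk g h) := by
  refine ⟨?_, fun z => ?_, fun z hz => ?_⟩
  · unfold H153R4.kk
    exact (hg.meas.comp (by fun_prop)).mul (continuous_conj.measurable.comp hg.meas)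
  · unfold H153R4.kk
    rw [norm_mul, RCLike.norm_conj, sq]
    exact mul_le_mul (hg.bd _) (hg.bd _) (norm_nonneg _) hg.M0
  · unfold H153R4.kk
    rw [hg.supp z hz]
    simp

lemma kk_zero {M : ℝ} {g : E n → ℂ} (hg : BS M g) (h : E n) (hh : ∃ j, 2 < |h j|) (z : E n) :
    kk g h z = 0 := by
  unfold kk
  by_cases hz : z ∈ cube n
  · rw [hg.supp (z + h), zero_mul]
    intro hzh
    obtain ⟨j, hj⟩ := hh
    have h1 := hz j
    have h2 := hzh j
    have : |h j| ≤ |z j + h j| + |z j| := by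
      have := abs_sub (z j + h j) (z j)
      simpa using this
    rw [PiLp.add_apply] at h2
    linarith
  · rw [hg.supp z hz]
    simp

/-- autocorrelation -/
noncomputable def BB (g : E n → ℂ) (h : E n) : ℂ := ∫ z, kk g h z

lemma conj_fourier (g : E n → ℂ) (ξ : E n) :
    𝓕 (fun t => conj (g (-t))) ξ = conj (𝓕 g ξ) := by
  rw [Real.fourier_eq', Real.fourier_eq']
  rw [← integral_conj, ← integral_neg_eq_self]
  apply integral_congr_ae
  refine ae_of_all _ fun s => ?_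
  simp only [smul_eq_mul, map_mul, neg_neg]
  congr 1
  rw [← Complex.exp_conj]
  congr 1
  simp only [map_mul, Complex.conj_ofReal, Complex.conj_I, inner_neg_left]
  push_cast
  ring

lemma BB_conv (g : E n → ℂ) :
    ((fun t => conj (g (-t))) ⋆[ContinuousLinearMap.mul ℂ ℂ] g) = BB g := by
  ext h
  unfold BB convolution kk
  rw [← integral_neg_eq_self]
  apply integral_congr_ae
  refine ae_of_all _ fun s => ?_
  simp only [neg_neg, ContinuousLinearMap.mul_apply', sub_neg_eq_add]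
  rw [add_comm h s, mul_comm]

lemma BS.neg {M : ℝ} {g : E n → ℂ} (hg : BS M g) : BS M (fun t => conj (g (-t))) := by
  refine ⟨?_, fun z => ?_, fun z hz => ?_⟩
  · exact continuous_conj.measurable.comp (hg.meas.comp measurable_neg)
  · rw [RCLike.norm_conj]
    exact hg.bd _
  · rw [hg.supp (-z)]
    · simp
    · intro h
      apply hz
      intro j
      have := h j
      rwa [PiLp.neg_apply, abs_neg] at this

lemma F_BB {M : ℝ} {g : E n → ℂ} (hg : BS M g) (ξ : E n) :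
    𝓕 (BB g) ξ = conj (𝓕 g ξ) * 𝓕 g ξ := by
  rw [← BB_conv, Real.fourier_mul_convolution_eq hg.neg.int hg.int, conj_fourier]

lemma BB_int {M : ℝ} {g : E n → ℂ} (hg : BS M g) : Integrable (BB g) := by
  rw [← BB_conv]
  exact hg.neg.int.integrable_convolution (ContinuousLinearMap.mul ℂ ℂ) hg.int

lemma BB_bd {M : ℝ} {g : E n → ℂ} (hg : BS M g) (h : E n) :
    ‖BB g h‖ ≤ (volume (cube n)).toReal * M ^ 2 := by
  have := (hg.kk h).fbd 0
  rw [Real.fourier_eq] at this
  simpa [BB] using this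

lemma BB_memLp {M : ℝ} {g : E n → ℂ} (hg : BS M g) : MemLp (BB g) 2 := by
  have h1 := BB_int hg
  rw [memLp_two_iff_integrable_sq_norm h1.aestronglyMeasurable]
  refine (h1.norm.const_mul ((volume (cube n)).toReal * M ^ 2)).mono
    (h1.aestronglyMeasurable.norm.pow 2) (ae_of_all _ fun h => ?_)
  rw [Real.norm_of_nonneg (by positivity), norm_mul, norm_norm, sq,
    Real.norm_of_nonneg (by have := hg.M0; positivity)]
  exact mul_le_mul_of_nonneg_right (BB_bd hg h) (norm_nonneg _)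

lemma four {M : ℝ} {g : E n → ℂ} (hg : BS M g) :
    ∫⁻ ξ : E n, ‖𝓕 g ξ‖ₑ ^ 4 = ∫⁻ h, ‖BB g h‖ₑ ^ 2 := by
  rw [← plancherel _ (BB_int hg) (BB_memLp hg)]
  congr 1
  ext ξ
  rw [F_BB hg, enorm_mul]
  have : ‖conj (𝓕 g ξ)‖ₑ = ‖𝓕 g ξ‖ₑ := by
    rw [← ofReal_norm, ← ofReal_norm, RCLike.norm_conj]
  rw [this]
  ring

/-- `2 s ∘ h` -/
noncomputable def dd (s : Fin n → ℝ) (h : E n) : E n := WithLp.toLp 2 fun j => 2 * s j * h j

lemma BB_ch (s : Fin n → ℝ) (g : E n → ℂ) (h : E n) :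
    ‖BB (ch s g) h‖ₑ = ‖𝓕 (kk g h) (dd s h)‖ₑ := by
  have h1 : BB (ch s g) h =
      cexp (((-(2 * Real.pi * ∑ j, s j * h j ^ 2) : ℝ) : ℂ) * I) * 𝓕 (kk g h) (dd s h) := by
    unfold BB
    rw [Real.fourier_eq', ← integral_const_mul]
    apply integral_congr_ae
    refine ae_of_all _ fun z => ?_
    simp only [kk, ch, map_mul, smul_eq_mul]
    rw [← Complex.exp_conj]
    have e0 : (2 * Real.pi * ∑ j, s j * (z + h) j ^ 2) - 2 * Real.pi * ∑ j, s j * z j ^ 2 =
        2 * Real.pi * (∑ j, s j * h j ^ 2) + 2 * Real.pi * ⟪z, dd s h⟫ := by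
      rw [PiLp.inner_apply, ← mul_sub, ← mul_add, ← Finset.sum_sub_distrib,
        ← Finset.sum_add_distrib]
      congr 1
      apply Finset.sum_congr rfl
      intro j _
      simp only [PiLp.add_apply, dd, RCLike.inner_apply, conj_trivial]
      ring
    have e1 : cexp (((-(2 * Real.pi * ∑ j, s j * (z + h) j ^ 2) : ℝ) : ℂ) * I) *
        cexp (conj ((((-(2 * Real.pi * ∑ j, s j * z j ^ 2) : ℝ) : ℂ) * I))) =
        cexp (((-(2 * Real.pi * ∑ j, s j * h j ^ 2) : ℝ) : ℂ) * I) *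
          cexp (((-2 * Real.pi * ⟪z, dd s h⟫ : ℝ) : ℂ) * I) := by
      rw [← Complex.exp_add, ← Complex.exp_add]
      congr 1
      simp only [map_mul, Complex.conj_ofReal, Complex.conj_I]
      have e2 : -(2 * Real.pi * ∑ j, s j * (z + h) j ^ 2) + 2 * Real.pi * ∑ j, s j * z j ^ 2 =
        -(2 * Real.pi * ∑ j, s j * h j ^ 2) + -2 * Real.pi * ⟪z, dd s h⟫ := by linarith
      have e3 := congrArg (fun r : ℝ => (r : ℂ) * I) e2
      simp only [Complex.ofReal_add, Complex.ofReal_neg] at e3 ⊢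
      linear_combination e3
    linear_combination (g (z + h) * conj (g z)) * e1
  rw [h1, enorm_mul]
  have : ‖cexp (((-(2 * Real.pi * ∑ j, s j * h j ^ 2) : ℝ) : ℂ) * I)‖ₑ = 1 := by
    rw [← ofReal_norm, Complex.norm_exp_ofReal_mul_I, ENNReal.ofReal_one]
  rw [this, one_mul]

theorem four_ch {M : ℝ} {g : E n → ℂ} (hg : BS M g) (s : Fin n → ℝ) :
    ∫⁻ ξ : E n, ‖𝓕 (ch s g) ξ‖ₑ ^ 4 = ∫⁻ h, ‖𝓕 (kk g h) (dd s h)‖ₑ ^ 2 := by
  rw [four (hg.ch s)]
  simp only [BB_ch]

theorem two_ch {M : ℝ} {g : E n → ℂ} (hg : BS M g) (s : Fin n → ℝ) :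
    ∫⁻ ξ : E n, ‖𝓕 (ch s g) ξ‖ₑ ^ 2 = ∫⁻ z, ‖g z‖ₑ ^ 2 := by
  rw [plancherel _ (hg.ch s).int ((hg.ch s).memLp 2)]
  simp only [ch_enorm]

end Pool.Agent.H153R4
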