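import Mathlib
import Pool.Agent.H153R4.Four
set_option autoImplicit false

/-! Local constancy of the Fourier transform of functions supported in the cube. -/

namespace Pool.Agent.H153R4

open Complex MeasureTheory Set
open scoped ENNReal FourierTransform ComplexConjugate Convolution RealInnerProductSpace

variable {n : ℕ}

/-- the Gaussian -/
noncomputable def gm (z : E n) : ℝ := Real.exp (-Real.pi * ‖z‖ ^ 2)

/-- the complex Gaussian -/
noncomputable def gc (z : E n) : ℂ := cexp (-Real.pi * (‖z‖ : ℂ) ^ 2)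

lemma gc_eq (z : E n) : gc z = (gm z : ℂ) := by
  unfold gc gm
  push_cast
  rfl

lemma gm_pos (z : E n) : 0 < gm z := Real.exp_pos _

lemma gc_int : Integrable (gc : E n → ℂ) := by
  have h := GaussianFourier.integrable_cexp_neg_mul_sq_norm_add (V := E n) (b := (Real.pi : ℂ))
    (by simpa using Real.pi_pos) 0 0
  refine h.congr (ae_of_all _ fun z => ?_)
  simp [gc]

lemma gc_four (z : E n) : 𝓕 (gc : E n → ℂ) z = gc z := by
  have h := fourier_gaussian_innerProductSpace (V := E n) (b := (Real.pi : ℂ))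
    (by simpa using Real.pi_pos) z
  have hp : (Real.pi : ℂ) ≠ 0 := by exact_mod_cast Real.pi_ne_zero
  have h1 : (fun v : E n => cexp (-(Real.pi : ℂ) * (‖v‖ : ℂ) ^ 2)) = gc := rfl
  rw [h1] at h
  rw [h, div_self hp, Complex.one_cpow, one_mul]
  unfold gc
  congr 1
  field_simp

lemma gm_int : Integrable (gm : E n → ℝ) := by
  have := (gc_int (n := n)).norm
  refine this.congr (ae_of_all _ fun z => ?_)
  simp only [gc_eq]
  rw [Complex.norm_real, Real.norm_of_nonneg (gm_pos z).le]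

lemma gm_meas : Measurable (gm : E n → ℝ) := by
  unfold gm
  fun_prop

lemma gm_integral : ∫ z : E n, gm z = 1 := by
  have h := gc_four (n := n) 0
  rw [Real.fourier_eq] at h
  simp only [inner_zero_right, neg_zero, AddChar.map_zero_eq_one, one_smul] at h
  have h2 : gc (0 : E n) = 1 := by simp [gc]
  rw [h2] at h
  simp only [gc_eq] at h
  rw [integral_complex_ofReal] at h
  exact_mod_cast h

lemma gm_lint : ∫⁻ z : E n, ENNReal.ofReal (gm z) = 1 := by
  rw [← ofReal_integral_eq_lintegral_ofReal gm_int (ae_of_all _ fun z => (gm_pos z).le),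
    gm_integral, ENNReal.ofReal_one]

/-- unweighted function -/
noncomputable def up (ψ : E n → ℂ) (z : E n) : ℂ := (Real.exp (Real.pi * ‖z‖ ^ 2) : ℂ) * ψ z

lemma up_gc (ψ : E n → ℂ) (z : E n) : gc z * up ψ z = ψ z := by
  unfold up
  rw [gc_eq, gm, ← mul_assoc, ← Complex.ofReal_mul, ← Real.exp_add]
  have : -Real.pi * ‖z‖ ^ 2 + Real.pi * ‖z‖ ^ 2 = 0 := by ring
  rw [this, Real.exp_zero]
  simp

lemma norm_sq_cube {z : E n} (hz : z ∈ cube n) : ‖z‖ ^ 2 ≤ n := by
  rw [EuclideanSpace.norm_eq, Real.sq_sqrt (Finset.sum_nonneg fun i _ => by positivity)]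
  calc ∑ i, ‖z i‖ ^ 2 ≤ ∑ i : Fin n, (1 : ℝ) := by
        apply Finset.sum_le_sum
        intro i _
        rw [Real.norm_eq_abs]
        have := hz i
        have := abs_nonneg (z i)
        nlinarith
    _ = n := by simp

lemma BS.up {M : ℝ} {g : E n → ℂ} (hg : BS M g) : BS (Real.exp (Real.pi * n) * M) (up g) := by
  refine ⟨?_, fun z => ?_, fun z hz => ?_⟩
  · unfold H153R4.up
    exact (by fun_prop : Measurable fun z : E n => ((Real.exp (Real.pi * ‖z‖ ^ 2) : ℝ) : ℂ)).mul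
      hg.meas
  · unfold H153R4.up
    by_cases hz : z ∈ cube n
    · rw [norm_mul, Complex.norm_real, Real.norm_of_nonneg (Real.exp_pos _).le]
      refine mul_le_mul ?_ (hg.bd z) (norm_nonneg _) (Real.exp_pos _).le
      rw [Real.exp_le_exp]
      exact mul_le_mul_of_nonneg_left (norm_sq_cube hz) Real.pi_pos.le
    · rw [hg.supp z hz, mul_zero, norm_zero]
      have := hg.M0
      positivity
  · unfold H153R4.up
    rw [hg.supp z hz, mul_zero]

lemma rep {M : ℝ} {ψ : E n → ℂ} (hψ : BS M ψ) (y : E n) :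
    𝓕 ψ y = ∫ w, gc w * 𝓕 (up ψ) (w + y) := by
  set G : E n → ℂ := fun v => Real.fourierChar (-⟪v, y⟫) • up ψ v with hG
  have hGi : Integrable G := by
    have := (Real.fourierIntegral_convergent_iff (f := up ψ) (μ := (volume : Measure (E n))) y).2
      hψ.up.int
    exact this
  have e3 := VectorFourier.integral_fourierIntegral_smul_eq_flip (L := innerₗ (E n))
      Real.continuous_fourierChar continuous_inner (gc_int (n := n)) hGi
      (μ := volume) (ν := volume)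
  simp only [flip_innerₗ] at e3
  have e1 : ∀ w, VectorFourier.fourierIntegral Real.fourierChar volume (innerₗ (E n)) G w =
      𝓕 (up ψ) (w + y) := by
    intro w
    rw [Real.fourier_eq]
    unfold VectorFourier.fourierIntegral
    congr 1
    ext v
    simp only [hG, innerₗ_apply_apply, inner_add_right]
    rw [smul_smul, neg_add, ← AddChar.map_add_eq_mul]
  have e2 : ∀ w, VectorFourier.fourierIntegral Real.fourierChar volume (innerₗ (E n)) gc w =
      gc w := by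
    intro w
    have := gc_four w
    rw [Real.fourier_eq] at this
    exact this
  simp only [e1, e2, smul_eq_mul] at e3
  rw [← e3, Real.fourier_eq]
  congr 1
  ext v
  rw [hG]
  simp only
  rw [mul_smul_comm, up_gc]

lemma F_cont {M : ℝ} {ψ : E n → ℂ} (hψ : BS M ψ) : Continuous (𝓕 ψ) :=
  VectorFourier.fourierIntegral_continuous (L := innerₗ (E n)) Real.continuous_fourierChar
      continuous_inner hψ.int

/-- Local constancy. -/
theorem loc {M : ℝ} {ψ : E n → ℂ} (hψ : BS M ψ) (y : E n) :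
    ‖𝓕 ψ y‖ₑ ^ 2 ≤ ∫⁻ z, ENNReal.ofReal (gm (z - y)) * ‖𝓕 (up ψ) z‖ₑ ^ 2 := by
  have hm : Measurable (fun w : E n => ‖𝓕 (up ψ) (w + y)‖ₑ) :=
    ((F_cont hψ.up).measurable.comp (measurable_id.add_const y)).enorm
  have hgm : Measurable (fun w : E n => ENNReal.ofReal (gm w)) := gm_meas.ennreal_ofReal
  have h1 : ‖𝓕 ψ y‖ₑ ≤ ∫⁻ w, ENNReal.ofReal (gm w) * ‖𝓕 (up ψ) (w + y)‖ₑ := by
    rw [rep hψ y]
    refine (enorm_integral_le_lintegral_enorm _).trans (le_of_eq ?_)
    congr 1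
    ext w
    rw [enorm_mul, gc_eq, ← ofReal_norm, Complex.norm_real, Real.norm_of_nonneg (gm_pos w).le]
  have h2 : (∫⁻ w, ENNReal.ofReal (gm w) * ‖𝓕 (up ψ) (w + y)‖ₑ) ^ 2 ≤
      ∫⁻ w, ENNReal.ofReal (gm w) * ‖𝓕 (up ψ) (w + y)‖ₑ ^ 2 := by
    set P : Measure (E n) := volume.withDensity fun w => ENNReal.ofReal (gm w) with hP
    have hPu : P univ = 1 := by
      rw [hP, withDensity_apply _ MeasurableSet.univ, Measure.restrict_univ, gm_lint]
    have a1 : ∫⁻ w, ENNReal.ofReal (gm w) * ‖𝓕 (up ψ) (w + y)‖ₑ =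
        ∫⁻ w, ‖𝓕 (up ψ) (w + y)‖ₑ ∂P := by
      rw [hP, lintegral_withDensity_eq_lintegral_mul _ hgm hm]
      rfl
    have a2 : ∫⁻ w, ENNReal.ofReal (gm w) * ‖𝓕 (up ψ) (w + y)‖ₑ ^ 2 =
        ∫⁻ w, ‖𝓕 (up ψ) (w + y)‖ₑ ^ 2 ∂P := by
      rw [hP, lintegral_withDensity_eq_lintegral_mul _ hgm (hm.pow_const 2)]
      rfl
    rw [a1, a2]
    have hh := ENNReal.lintegral_mul_le_Lp_mul_Lq P Real.HolderConjugate.two_two
      (f := fun w => ‖𝓕 (up ψ) (w + y)‖ₑ) (g := fun _ => 1) hm.aemeasurable aemeasurable_const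
    simp only [lintegral_const, hPu, mul_one, Pi.mul_apply,
      ENNReal.rpow_ofNat, one_pow, ENNReal.one_rpow] at hh
    calc (∫⁻ w, ‖𝓕 (up ψ) (w + y)‖ₑ ∂P) ^ 2
        ≤ ((∫⁻ w, ‖𝓕 (up ψ) (w + y)‖ₑ ^ 2 ∂P) ^ (1 / 2 : ℝ)) ^ 2 := by gcongr
      _ = _ := by
          rw [← ENNReal.rpow_natCast, ← ENNReal.rpow_mul]
          norm_num
  have h3 : ∫⁻ w, ENNReal.ofReal (gm w) * ‖𝓕 (up ψ) (w + y)‖ₑ ^ 2 =
      ∫⁻ z, ENNReal.ofReal (gm (z - y)) * ‖𝓕 (up ψ) z‖ₑ ^ 2 := by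
    rw [← lintegral_add_right_eq_self
      (fun z => ENNReal.ofReal (gm (z - y)) * ‖𝓕 (up ψ) z‖ₑ ^ 2) y]
    simp only [add_sub_cancel_right]
  rw [← h3]
  exact (pow_le_pow_left' h1 2).trans h2

/-- Integrated form. -/
theorem loc_int {Y : Type*} [MeasurableSpace Y] (ν : Measure Y) [SFinite ν] (θ : Y → E n)
    (hθ : Measurable θ) (K : ℝ≥0∞)
    (hK : ∀ z, ∫⁻ y, ENNReal.ofReal (gm (z - θ y)) ∂ν ≤ K) {M : ℝ} {ψ : E n → ℂ} (hψ : BS M ψ) :
    ∫⁻ y, ‖𝓕 ψ (θ y)‖ₑ ^ 2 ∂ν ≤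
      K * (volume (cube n) * ENNReal.ofReal ((Real.exp (Real.pi * n) * M) ^ 2)) := by
  have hm : Measurable fun z : E n => ‖𝓕 (up ψ) z‖ₑ ^ 2 := (F_cont hψ.up).measurable.enorm.pow_const 2
  calc ∫⁻ y, ‖𝓕 ψ (θ y)‖ₑ ^ 2 ∂ν
      ≤ ∫⁻ y, (∫⁻ z, ENNReal.ofReal (gm (z - θ y)) * ‖𝓕 (up ψ) z‖ₑ ^ 2) ∂ν :=
        lintegral_mono fun y => loc hψ (θ y)
    _ = ∫⁻ z, (∫⁻ y, ENNReal.ofReal (gm (z - θ y)) * ‖𝓕 (up ψ) z‖ₑ ^ 2 ∂ν) := by
        rw [lintegral_lintegral_swap]
        apply Measurable.aemeasurable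
        have h1 : Measurable fun p : Y × E n => p.2 - θ p.1 :=
          measurable_snd.sub (hθ.comp measurable_fst)
        exact ((gm_meas.comp h1).ennreal_ofReal).mul (hm.comp measurable_snd)
    _ ≤ ∫⁻ z, K * ‖𝓕 (up ψ) z‖ₑ ^ 2 := by
        apply lintegral_mono
        intro z
        have h1 : Measurable fun y : Y => ENNReal.ofReal (gm (z - θ y)) :=
          (gm_meas.comp (measurable_const.sub hθ)).ennreal_ofReal
        simp only
        rw [lintegral_mul_const _ h1]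
        gcongr
        exact hK z
    _ = K * ∫⁻ z, ‖𝓕 (up ψ) z‖ₑ ^ 2 := lintegral_const_mul _ hm
    _ ≤ _ := by
        gcongr
        rw [plancherel _ hψ.up.int (hψ.up.memLp 2)]
        exact hψ.up.l2

end Pool.Agent.H153R4
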