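import Mathlib
import Pool.Agent.H153R4.Gauss
set_option autoImplicit false

/-! Gaussian averages along the dilates. -/

namespace Pool.Agent.H153R4

open Complex MeasureTheory Set
open scoped ENNReal

/-- one dimensional Gaussian integral over a set, interpolated bound -/
lemma gauss_set (c z w a β : ℝ) (hc : 0 < c) (hw : w ≠ 0) (ha : 0 ≤ a) (hβ0 : 0 ≤ β) (hβ1 : β ≤ 1)
    (S : Set ℝ) (hS : volume S ≤ ENNReal.ofReal a) :
    ∫⁻ l in S, ENNReal.ofReal (Real.exp (-c * (z - w * l) ^ 2)) ≤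
      ENNReal.ofReal (a ^ β * (Real.sqrt (Real.pi / c) / |w|) ^ (1 - β)) := by
  set b : ℝ := Real.sqrt (Real.pi / c) / |w| with hb
  have hb0 : 0 ≤ b := by positivity
  have h1 : ∫⁻ l in S, ENNReal.ofReal (Real.exp (-c * (z - w * l) ^ 2)) ≤ ENNReal.ofReal a := by
    refine le_trans ?_ hS
    calc ∫⁻ l in S, ENNReal.ofReal (Real.exp (-c * (z - w * l) ^ 2)) ≤ ∫⁻ l in S, 1 := by
          apply lintegral_mono
          intro l
          simp only
          rw [ENNReal.ofReal_le_one, Real.exp_le_one_iff]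
          nlinarith [sq_nonneg (z - w * l)]
      _ = volume S := by simp
  have hint0 : Integrable fun x : ℝ => Real.exp (-c * x ^ 2) := integrable_exp_neg_mul_sq hc
  have hint1 : Integrable fun x : ℝ => Real.exp (-c * (z - x) ^ 2) := hint0.comp_sub_left z
  have hint2 : Integrable fun l : ℝ => Real.exp (-c * (z - w * l) ^ 2) :=
    hint1.comp_mul_left' hw
  have h2 : ∫⁻ l in S, ENNReal.ofReal (Real.exp (-c * (z - w * l) ^ 2)) ≤ ENNReal.ofReal b := by
    refine (setLIntegral_le_lintegral _ _).trans (le_of_eq ?_)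
    rw [← ofReal_integral_eq_lintegral_ofReal hint2 (ae_of_all _ fun _ => (Real.exp_pos _).le)]
    congr 1
    have e1 := Measure.integral_comp_mul_left (fun x : ℝ => Real.exp (-c * (z - x) ^ 2)) w
    rw [e1, integral_sub_left_eq_self (fun x : ℝ => Real.exp (-c * x ^ 2)) volume z,
      integral_gaussian, smul_eq_mul, hb, abs_inv]
    ring
  have h3 : min a b ≤ a ^ β * b ^ (1 - β) := by
    have hm : 0 ≤ min a b := le_min ha hb0
    rcases hm.eq_or_lt with h | h
    · rw [← h]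
      positivity
    · calc min a b = (min a b) ^ β * (min a b) ^ (1 - β) := by
            rw [← Real.rpow_add h]
            simp
        _ ≤ a ^ β * b ^ (1 - β) := by
            have q1 : (min a b) ^ β ≤ a ^ β := Real.rpow_le_rpow hm (min_le_left _ _) hβ0
            have q2 : (min a b) ^ (1 - β) ≤ b ^ (1 - β) :=
              Real.rpow_le_rpow hm (min_le_right _ _) (by linarith)
            exact mul_le_mul q1 q2 (by positivity) (by positivity)
  refine le_trans (le_min h1 h2) ?_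
  rw [← ENNReal.ofReal_min]
  exact ENNReal.ofReal_le_ofReal h3

lemma sum_Ioc (f : ℝ → ℝ≥0∞) (a d : ℝ) (hd : 0 ≤ d) (N : ℕ) :
    ∑ k ∈ Finset.range N, ∫⁻ l in Ioc (a + k * d) (a + (k + 1) * d), f l =
      ∫⁻ l in Ioc a (a + N * d), f l := by
  induction N with
  | zero => simp
  | succ N ih =>
    rw [Finset.sum_range_succ, ih, ← lintegral_union measurableSet_Ioc]
    · congr 2
      rw [Ioc_union_Ioc_eq_Ioc]
      · push_cast
        rfl
      · nlinarith [(Nat.cast_nonneg N : (0 : ℝ) ≤ N)]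
      · nlinarith
    · rw [Set.disjoint_left]
      intro x hx hx2
      exact absurd hx2.1 (not_lt.2 hx.2)

/-- the constants of the cells -/
noncomputable def bk (L T t u z : ℝ) (k : ℕ) : ℝ≥0∞ :=
  ENNReal.ofReal (T * Real.exp (64 * Real.pi)) *
    ∫⁻ l in Ioc (-L + k * (1 / T)) (-L + (k + 1) * (1 / T)),
      ENNReal.ofReal (Real.exp (-(Real.pi / 2) * (z - 2 * t * u * l) ^ 2))

lemma bk_bound (L T t u z : ℝ) (hT : 1 ≤ T) (ht : |t| ≤ 2 * T) (hu : |u| ≤ 2) (k : ℕ) (l : ℝ)
    (hl1 : -L + k * (1 / T) ≤ l) (hl2 : l ≤ -L + (k + 1) * (1 / T)) :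
    ENNReal.ofReal (Real.exp (-Real.pi * (z - 2 * t * l * u) ^ 2)) ≤ bk L T t u z k := by
  have hT0 : 0 < T := by linarith
  have h1 : ∀ l' ∈ Ioc (-L + k * (1 / T)) (-L + (k + 1) * (1 / T)),
      Real.exp (-Real.pi * (z - 2 * t * l * u) ^ 2) ≤
        Real.exp (64 * Real.pi) * Real.exp (-(Real.pi / 2) * (z - 2 * t * u * l') ^ 2) := by
    intro l' hl'
    rw [← Real.exp_add, Real.exp_le_exp]
    have hd : |l - l'| ≤ 1 / T := by
      rw [abs_le]
      constructor
      · nlinarith [hl'.1, hl'.2]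
      · nlinarith [hl'.1, hl'.2]
    set a : ℝ := z - 2 * t * u * l' with ha
    set h : ℝ := 2 * t * u * (l - l') with hh
    have e1 : z - 2 * t * l * u = a - h := by rw [ha, hh]; ring
    have hh8 : |h| ≤ 8 := by
      rw [hh, abs_mul, abs_mul, abs_mul, abs_two]
      calc 2 * |t| * |u| * |l - l'| ≤ 2 * (2 * T) * 2 * (1 / T) := by gcongr
        _ = 8 := by field_simp; norm_num
    have hh64 : h ^ 2 ≤ 64 := by
      rw [← sq_abs]
      nlinarith [abs_nonneg h]
    rw [e1]
    have hpi := Real.pi_pos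
    -- (a-h)^2 ≥ a^2/2 - h^2
    have e2 : a ^ 2 / 2 - h ^ 2 ≤ (a - h) ^ 2 := by nlinarith [sq_nonneg (a - 2 * h)]
    nlinarith
  unfold bk
  have hvol : volume (Ioc (-L + k * (1 / T)) (-L + (k + 1) * (1 / T))) = ENNReal.ofReal (1 / T) := by
    rw [Real.volume_Ioc]
    congr 1
    ring
  calc ENNReal.ofReal (Real.exp (-Real.pi * (z - 2 * t * l * u) ^ 2))
      = ENNReal.ofReal T * ∫⁻ _l' in Ioc (-L + k * (1 / T)) (-L + (k + 1) * (1 / T)),
          ENNReal.ofReal (Real.exp (-Real.pi * (z - 2 * t * l * u) ^ 2)) := by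
        rw [lintegral_const, Measure.restrict_apply_univ, hvol, mul_left_comm,
          ← ENNReal.ofReal_mul hT0.le, mul_one_div_cancel hT0.ne', ENNReal.ofReal_one, mul_one]
    _ ≤ ENNReal.ofReal T * ∫⁻ l' in Ioc (-L + k * (1 / T)) (-L + (k + 1) * (1 / T)),
          ENNReal.ofReal (Real.exp (64 * Real.pi)) *
            ENNReal.ofReal (Real.exp (-(Real.pi / 2) * (z - 2 * t * u * l') ^ 2)) := by
        gcongr 1
        apply setLIntegral_mono' measurableSet_Ioc
        intro l' hl'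
        rw [← ENNReal.ofReal_mul (Real.exp_pos _).le]
        exact ENNReal.ofReal_le_ofReal (h1 l' hl')
    _ = _ := by
        rw [lintegral_const_mul _ (by fun_prop), ← mul_assoc, ← ENNReal.ofReal_mul hT0.le]

lemma bk_sum (L T t u z β : ℝ) (hL : 1 ≤ L) (hT : 1 ≤ T) (ht : T ≤ |t|) (hu0 : u ≠ 0)
    (hβ0 : 0 ≤ β) (hβ1 : β ≤ 1) :
    ∑ k ∈ Finset.range (⌊2 * L * T⌋₊ + 1), bk L T t u z k ≤
      ENNReal.ofReal (Real.exp (64 * Real.pi) * (2 * L + 1) * (T ^ β * |u| ^ (β - 1))) := by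
  have hT0 : 0 < T := by linarith
  have hu : 0 < |u| := abs_pos.2 hu0
  have ht0 : 0 < |t| := by linarith
  have ht00 : t ≠ 0 := abs_pos.1 ht0
  unfold bk
  rw [← Finset.mul_sum, sum_Ioc _ _ _ (by positivity)]
  have hN : ((⌊2 * L * T⌋₊ + 1 : ℕ) : ℝ) * (1 / T) ≤ 2 * L + 1 := by
    push_cast
    have h1 : (⌊2 * L * T⌋₊ : ℝ) ≤ 2 * L * T := Nat.floor_le (by positivity)
    rw [mul_one_div, div_le_iff₀ hT0]
    nlinarith
  have h1 := gauss_set (Real.pi / 2) z (2 * t * u) (2 * L + 1) β (by positivity)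
    (by positivity) (by positivity) hβ0 hβ1
    (Ioc (-L) (-L + ((⌊2 * L * T⌋₊ + 1 : ℕ) : ℝ) * (1 / T))) (by
      rw [Real.volume_Ioc]
      apply ENNReal.ofReal_le_ofReal
      linarith)
  refine (mul_le_mul' le_rfl h1).trans ?_
  rw [← ENNReal.ofReal_mul (by positivity)]
  apply ENNReal.ofReal_le_ofReal
  have e1 : Real.pi / (Real.pi / 2) = 2 := by
    have := Real.pi_ne_zero
    field_simp
  rw [e1, abs_mul, abs_mul, abs_two]
  have h2 : Real.sqrt 2 / (2 * |t| * |u|) ≤ T⁻¹ * |u|⁻¹ := by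
    rw [← mul_inv, div_le_iff₀ (by positivity)]
    have h3 : Real.sqrt 2 ≤ 2 := by
      rw [Real.sqrt_le_left (by norm_num)]
      norm_num
    have h4 : (T * |u|)⁻¹ * (2 * |t| * |u|) = 2 * (|t| / T) := by
      field_simp
    rw [h4]
    have h5 : 1 ≤ |t| / T := by rwa [one_le_div hT0]
    linarith
  have h6 : (Real.sqrt 2 / (2 * |t| * |u|)) ^ (1 - β) ≤ T ^ (β - 1) * |u| ^ (β - 1) := by
    calc (Real.sqrt 2 / (2 * |t| * |u|)) ^ (1 - β) ≤ (T⁻¹ * |u|⁻¹) ^ (1 - β) :=
          Real.rpow_le_rpow (by positivity) h2 (by linarith)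
      _ = T ^ (β - 1) * |u| ^ (β - 1) := by
          rw [Real.mul_rpow (by positivity) (by positivity), Real.inv_rpow hT0.le,
            Real.inv_rpow hu.le, ← Real.rpow_neg hT0.le, ← Real.rpow_neg hu.le]
          congr 2 <;> ring
  have h7 : (2 * L + 1) ^ β ≤ 2 * L + 1 := by
    calc (2 * L + 1) ^ β ≤ (2 * L + 1) ^ (1 : ℝ) :=
          Real.rpow_le_rpow_of_exponent_le (by linarith) hβ1
      _ = _ := Real.rpow_one _
  calc T * Real.exp (64 * Real.pi) * ((2 * L + 1) ^ β *
        (Real.sqrt 2 / (2 * |t| * |u|)) ^ (1 - β))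
      ≤ T * Real.exp (64 * Real.pi) * ((2 * L + 1) * (T ^ (β - 1) * |u| ^ (β - 1))) := by gcongr
    _ = Real.exp (64 * Real.pi) * (2 * L + 1) * ((T * T ^ (β - 1)) * |u| ^ (β - 1)) := by ring
    _ = _ := by
        rw [Real.rpow_sub_one hT0.ne']
        congr 2
        field_simp

/-- the average over the parameters for fixed time -/
lemma avg_l {m : ℕ} (μ : Measure (Fin m → ℝ)) (A α L T t β : ℝ) (hL : 1 ≤ L)
    (hT : 1 ≤ T)
    (hμ : ∀ (a : Fin m → ℝ) (r : ℝ), 0 < r → r ≤ 1 →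
      μ (Icc a (fun j => a j + r)) ≤ ENNReal.ofReal (A * r ^ α))
    (ht1 : T ≤ |t|) (ht2 : |t| ≤ 2 * T) (u z : Fin m → ℝ) (hu : ∀ j, |u j| ≤ 2)
    (hu0 : ∀ j, u j ≠ 0) (hβ0 : 0 ≤ β) (hβ1 : β ≤ 1) :
    ∫⁻ l in Icc (fun _ => -L) (fun _ => L),
        ∏ j, ENNReal.ofReal (Real.exp (-Real.pi * (z j - 2 * t * l j * u j) ^ 2)) ∂μ ≤
      ENNReal.ofReal (A * T ^ (-α)) * ∏ j, ENNReal.ofReal
        (Real.exp (64 * Real.pi) * (2 * L + 1) * (T ^ β * |u j| ^ (β - 1))) := by
  have hT0 : 0 < T := by linarith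
  set N : ℕ := ⌊2 * L * T⌋₊ + 1 with hN
  set C : (Fin m → ℕ) → Set (Fin m → ℝ) := fun k =>
    Icc (fun j => -L + k j * (1 / T)) (fun j => -L + k j * (1 / T) + 1 / T) with hC
  have hCm : ∀ k, MeasurableSet (C k) := fun k => measurableSet_Icc
  have hpt : ∀ l ∈ Icc (fun _ : Fin m => -L) (fun _ => L),
      ∏ j, ENNReal.ofReal (Real.exp (-Real.pi * (z j - 2 * t * l j * u j) ^ 2)) ≤
        ∑ k ∈ Fintype.piFinset (fun _ : Fin m => Finset.range N),
          (C k).indicator (fun _ => ∏ j, bk L T t (u j) (z j) (k j)) l := by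
    intro l hl
    set k : Fin m → ℕ := fun j => ⌊(l j + L) * T⌋₊ with hk
    have hlj : ∀ j, 0 ≤ (l j + L) * T := fun j => by
      have := hl.1 j
      apply mul_nonneg _ hT0.le
      linarith
    have hk1 : ∀ j, (k j : ℝ) ≤ (l j + L) * T := fun j => Nat.floor_le (hlj j)
    have hk2 : ∀ j, (l j + L) * T < k j + 1 := fun j => Nat.lt_floor_add_one _
    have hb1 : ∀ j, -L + k j * (1 / T) ≤ l j := fun j => by
      have := hk1 j
      have h2 : (k j : ℝ) * (1 / T) ≤ l j + L := by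
        rw [mul_one_div, div_le_iff₀ hT0]
        exact this
      linarith
    have hb2 : ∀ j, l j ≤ -L + (k j + 1) * (1 / T) := fun j => by
      have := hk2 j
      have h2 : l j + L ≤ ((k j : ℝ) + 1) * (1 / T) := by
        rw [mul_one_div, le_div_iff₀ hT0]
        exact this.le
      linarith
    have hkm : k ∈ Fintype.piFinset (fun _ : Fin m => Finset.range N) := by
      rw [Fintype.mem_piFinset]
      intro j
      rw [Finset.mem_range, hN, Nat.lt_succ_iff]
      apply Nat.floor_le_floor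
      have := hl.2 j
      have : l j + L ≤ 2 * L := by linarith
      exact mul_le_mul_of_nonneg_right this hT0.le
    have hlC : l ∈ C k := by
      refine ⟨fun j => hb1 j, fun j => ?_⟩
      have := hb2 j
      linarith
    refine le_trans ?_ (Finset.single_le_sum (f := fun k =>
      (C k).indicator (fun _ => ∏ j, bk L T t (u j) (z j) (k j)) l) (fun _ _ => zero_le) hkm)
    simp only [indicator_of_mem hlC]
    apply Finset.prod_le_prod'
    intro j _
    exact bk_bound L T t (u j) (z j) hT ht2 (hu j) (k j) (l j) (hb1 j) (hb2 j)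
  have hμC : ∀ k, μ (C k) ≤ ENNReal.ofReal (A * T ^ (-α)) := by
    intro k
    refine (hμ (fun j => -L + k j * (1 / T)) (1 / T) (by positivity) ?_).trans (le_of_eq ?_)
    · rw [div_le_one hT0]
      exact hT
    · rw [one_div, Real.inv_rpow hT0.le, ← Real.rpow_neg hT0.le]
  calc ∫⁻ l in Icc (fun _ => -L) (fun _ => L),
        ∏ j, ENNReal.ofReal (Real.exp (-Real.pi * (z j - 2 * t * l j * u j) ^ 2)) ∂μ
      ≤ ∫⁻ l in Icc (fun _ => -L) (fun _ => L),
          ∑ k ∈ Fintype.piFinset (fun _ : Fin m => Finset.range N),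
          (C k).indicator (fun _ => ∏ j, bk L T t (u j) (z j) (k j)) l ∂μ :=
        setLIntegral_mono' measurableSet_Icc hpt
    _ ≤ ∫⁻ l, ∑ k ∈ Fintype.piFinset (fun _ : Fin m => Finset.range N),
          (C k).indicator (fun _ => ∏ j, bk L T t (u j) (z j) (k j)) l ∂μ :=
        setLIntegral_le_lintegral _ _
    _ = ∑ k ∈ Fintype.piFinset (fun _ : Fin m => Finset.range N),
          (∏ j, bk L T t (u j) (z j) (k j)) * μ (C k) := by
        rw [lintegral_finsetSum _ fun k _ => measurable_const.indicator (hCm k)]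
        apply Finset.sum_congr rfl
        intro k _
        rw [lintegral_indicator_const (hCm k)]
    _ ≤ ∑ k ∈ Fintype.piFinset (fun _ : Fin m => Finset.range N),
          (∏ j, bk L T t (u j) (z j) (k j)) * ENNReal.ofReal (A * T ^ (-α)) := by
        gcongr with k hk
        exact hμC k
    _ = ENNReal.ofReal (A * T ^ (-α)) * ∏ j, ∑ k ∈ Finset.range N, bk L T t (u j) (z j) k := by
        rw [Finset.prod_univ_sum, ← Finset.sum_mul, mul_comm]
    _ ≤ _ := by
        gcongr with j _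
        exact bk_sum L T t (u j) (z j) β hL hT ht1 (hu0 j) hβ0 hβ1

end Pool.Agent.H153R4
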