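import Mathlib
import Pool.Agent.H153R4.Nu
set_option autoImplicit false

/-! Gaussian averages over time and parameters. -/

namespace Pool.Agent.H153R4

open Complex MeasureTheory Set
open scoped ENNReal

/-- the coefficients of the form at time `p.1` -/
def sv {m : ℕ} (p : ℝ × (Fin m → ℝ)) : Fin (m + 1) → ℝ := Fin.cons p.1 fun j => p.1 * p.2 j

lemma sv_meas {m : ℕ} : Measurable (sv : ℝ × (Fin m → ℝ) → Fin (m + 1) → ℝ) := by
  rw [measurable_pi_iff]
  intro j
  refine Fin.cases ?_ (fun i => ?_) j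
  · simpa [sv] using measurable_fst
  · simp only [sv, Fin.cons_succ]
    fun_prop

lemma gm_dd {m : ℕ} (p : ℝ × (Fin m → ℝ)) (h z : E (m + 1)) :
    ENNReal.ofReal (gm (z - dd (sv p) h)) =
      ENNReal.ofReal (Real.exp (-Real.pi * (z 0 - (2 * h 0) * p.1) ^ 2)) *
        ∏ j : Fin m, ENNReal.ofReal
          (Real.exp (-Real.pi * (z j.succ - 2 * p.1 * p.2 j * h j.succ) ^ 2)) := by
  unfold gm
  rw [EuclideanSpace.norm_sq_eq, Fin.sum_univ_succ, mul_add, Real.exp_add,
    ENNReal.ofReal_mul (Real.exp_pos _).le, Finset.mul_sum, Real.exp_sum,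
    ENNReal.ofReal_prod_of_nonneg (fun _ _ => (Real.exp_pos _).le)]
  congr 1
  · congr 3
    rw [Real.norm_eq_abs, sq_abs]
    simp only [PiLp.sub_apply, dd, sv, Fin.cons_zero]
    ring
  · apply Finset.prod_congr rfl
    intro j _
    congr 3
    rw [Real.norm_eq_abs, sq_abs]
    simp only [PiLp.sub_apply, dd, sv, Fin.cons_succ]
    ring

/-- the dyadic time set -/
def ST (T : ℝ) : Set ℝ := {t | T ≤ |t| ∧ |t| ≤ 2 * T}

lemma ST_meas (T : ℝ) : MeasurableSet (ST T) := by
  unfold ST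
  exact ((isClosed_le continuous_const continuous_abs).inter
    (isClosed_le continuous_abs continuous_const)).measurableSet

lemma ST_vol (T : ℝ) (hT : 0 ≤ T) : volume (ST T) ≤ ENNReal.ofReal (2 * T) := by
  have h1 : ST T ⊆ Icc T (2 * T) ∪ Icc (-(2 * T)) (-T) := by
    intro t ht
    rcases abs_cases t with h | h
    · left
      rw [ST, mem_ofPred_eq, h.1] at ht
      exact ht
    · right
      rw [ST, mem_ofPred_eq, h.1] at ht
      exact ⟨by linarith [ht.2], by linarith [ht.1]⟩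
  refine (measure_mono h1).trans ((measure_union_le _ _).trans ?_)
  rw [Real.volume_Icc, Real.volume_Icc, ← ENNReal.ofReal_add (by linarith) (by linarith)]
  apply ENNReal.ofReal_le_ofReal
  linarith

/-- constant -/
noncomputable def cL (L : ℝ) : ℝ := Real.exp (64 * Real.pi) * (2 * L + 1)

/-- constant -/
noncomputable def KT (m : ℕ) (A α L T β : ℝ) : ℝ :=
  2 * T ^ β * (A * T ^ (-α)) * (cL L * T ^ β) ^ m

lemma nu_bound {m : ℕ} (μ : Measure (Fin m → ℝ)) [SFinite μ] (A α L T β : ℝ) (hA : 0 ≤ A)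
    (hL : 1 ≤ L) (hT : 1 ≤ T)
    (hμ : ∀ (a : Fin m → ℝ) (r : ℝ), 0 < r → r ≤ 1 →
      μ (Icc a (fun j => a j + r)) ≤ ENNReal.ofReal (A * r ^ α))
    (hβ0 : 0 ≤ β) (hβ1 : β ≤ 1) (h z : E (m + 1)) (hh : ∀ j, |h j| ≤ 2) (hh0 : ∀ j, h j ≠ 0) :
    ∫⁻ p, ENNReal.ofReal (gm (z - dd (sv p) h))
        ∂((volume.restrict (ST T)).prod (μ.restrict (Icc (fun _ => -L) (fun _ => L)))) ≤
      ENNReal.ofReal (KT m A α L T β) * ∏ j, ENNReal.ofReal (|h j| ^ (β - 1)) := by
  have hT0 : 0 < T := by linarith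
  have hcL : 0 ≤ cL L := by unfold cL; positivity
  have hmeas : Measurable fun p : ℝ × (Fin m → ℝ) => ENNReal.ofReal (gm (z - dd (sv p) h)) := by
    simp only [gm_dd]
    fun_prop
  rw [lintegral_prod _ hmeas.aemeasurable]
  simp only [gm_dd]
  have hin : ∀ t ∈ ST T, ∫⁻ l in Icc (fun _ => -L) (fun _ => L),
      ENNReal.ofReal (Real.exp (-Real.pi * (z 0 - (2 * h 0) * t) ^ 2)) *
        ∏ j : Fin m, ENNReal.ofReal
          (Real.exp (-Real.pi * (z j.succ - 2 * t * l j * h j.succ) ^ 2)) ∂μ ≤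
      ENNReal.ofReal (Real.exp (-Real.pi * (z 0 - (2 * h 0) * t) ^ 2)) *
        (ENNReal.ofReal (A * T ^ (-α)) * ∏ j : Fin m, ENNReal.ofReal
        (Real.exp (64 * Real.pi) * (2 * L + 1) * (T ^ β * |h j.succ| ^ (β - 1)))) := by
    intro t ht
    rw [lintegral_const_mul _ (by fun_prop)]
    gcongr
    exact avg_l μ A α L T t β hL hT hμ ht.1 ht.2 (fun j => h j.succ) (fun j => z j.succ)
      (fun j => hh _) (fun j => hh0 _) hβ0 hβ1
  refine (setLIntegral_mono' (ST_meas T) hin).trans ?_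
  rw [lintegral_mul_const _ (by fun_prop)]
  have h1 := gauss_set Real.pi (z 0) (2 * h 0) (2 * T) β Real.pi_pos
    (mul_ne_zero two_ne_zero (hh0 0)) (by positivity) hβ0 hβ1 (ST T) (ST_vol T hT0.le)
  refine (mul_le_mul' h1 le_rfl).trans ?_
  have hx0 : 0 < |h 0| := abs_pos.2 (hh0 0)
  have h2 : (2 * T) ^ β * (Real.sqrt (Real.pi / Real.pi) / |2 * h 0|) ^ (1 - β) ≤
      2 * T ^ β * |h 0| ^ (β - 1) := by
    rw [div_self Real.pi_ne_zero, Real.sqrt_one, abs_mul, abs_two]
    have a1 : (2 * T) ^ β ≤ 2 * T ^ β := by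
      rw [Real.mul_rpow (by norm_num) hT0.le]
      gcongr
      calc (2 : ℝ) ^ β ≤ 2 ^ (1 : ℝ) := Real.rpow_le_rpow_of_exponent_le (by norm_num) hβ1
        _ = 2 := Real.rpow_one _
    have a2 : (1 / (2 * |h 0|)) ^ (1 - β) ≤ |h 0| ^ (β - 1) := by
      calc (1 / (2 * |h 0|)) ^ (1 - β) ≤ (|h 0|⁻¹) ^ (1 - β) := by
            apply Real.rpow_le_rpow (by positivity) _ (by linarith)
            rw [one_div]
            apply inv_anti₀ hx0
            linarith
        _ = _ := by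
            rw [Real.inv_rpow hx0.le, ← Real.rpow_neg hx0.le]
            congr 1
            ring
    exact mul_le_mul a1 a2 (by positivity) (by positivity)
  refine (mul_le_mul' (ENNReal.ofReal_le_ofReal h2) le_rfl).trans (le_of_eq ?_)
  rw [Fin.prod_univ_succ]
  have h3 : ∏ j : Fin m, ENNReal.ofReal
        (Real.exp (64 * Real.pi) * (2 * L + 1) * (T ^ β * |h j.succ| ^ (β - 1))) =
      ENNReal.ofReal ((cL L * T ^ β) ^ m) * ∏ j : Fin m, ENNReal.ofReal (|h j.succ| ^ (β - 1)) := by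
    have : ∀ j : Fin m, ENNReal.ofReal
        (Real.exp (64 * Real.pi) * (2 * L + 1) * (T ^ β * |h j.succ| ^ (β - 1))) =
        ENNReal.ofReal (cL L * T ^ β) * ENNReal.ofReal (|h j.succ| ^ (β - 1)) := by
      intro j
      rw [← ENNReal.ofReal_mul (by positivity)]
      congr 1
      unfold cL
      ring
    simp only [this]
    rw [Finset.prod_mul_distrib, Finset.prod_const, Finset.card_univ, Fintype.card_fin,
      ENNReal.ofReal_pow (by positivity)]
  rw [h3]
  unfold KT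
  rw [ENNReal.ofReal_mul (by positivity), ENNReal.ofReal_mul (p := 2 * T ^ β * (A * T ^ (-α)))
    (by positivity), ENNReal.ofReal_mul (p := 2 * T ^ β) (by positivity)]
  ring

lemma one_dim (β : ℝ) (hβ : 0 < β) :
    Integrable ((Icc (-2 : ℝ) 2).indicator fun y => |y| ^ (β - 1)) := by
  rw [integrable_indicator_iff measurableSet_Icc]
  have h1 : IntegrableOn (fun y : ℝ => |y| ^ (β - 1)) (Ioc 0 2) := by
    have h := intervalIntegral.intervalIntegrable_rpow' (a := 0) (b := 2) (r := β - 1) (by linarith)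
    rw [intervalIntegrable_iff_integrableOn_Ioc_of_le (by norm_num)] at h
    refine h.congr_fun (fun x hx => ?_) measurableSet_Ioc
    simp only [abs_of_pos hx.1]
  have h2 : IntegrableOn (fun y : ℝ => |y| ^ (β - 1)) (Icc 0 2) := by
    rwa [integrableOn_Icc_iff_integrableOn_Ioc]
  have h3 : IntegrableOn (fun y : ℝ => |y| ^ (β - 1)) (Icc (-2) 0) := by
    have := h2.comp_neg
    simpa using this
  have : Icc (-2 : ℝ) 2 = Icc (-2) 0 ∪ Icc 0 2 := by
    rw [Icc_union_Icc_eq_Icc] <;> norm_num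
  rw [this]
  exact h3.union h2

/-- the cube of side `4` -/
def Q2 (n : ℕ) : Set (E n) := {h | ∀ j, |h j| ≤ 2}

lemma Q2_meas (n : ℕ) : MeasurableSet (Q2 n) := by
  unfold Q2
  rw [ofPred_forall]
  refine (isClosed_iInter fun j => isClosed_le ?_ continuous_const).measurableSet
  fun_prop

lemma J_fin (n : ℕ) (β : ℝ) (hβ : 0 < β) :
    ∫⁻ h in Q2 n, ∏ j, ENNReal.ofReal (|h j| ^ (β - 1)) < ⊤ := by
  have h1 : Integrable (fun x : Fin n → ℝ =>
      ∏ j, (Icc (-2 : ℝ) 2).indicator (fun y => |y| ^ (β - 1)) (x j)) := by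
    rw [volume_pi]
    exact Integrable.fintype_prod (fun j => one_dim β hβ)
  have h2 : Integrable (fun x : E n =>
      ∏ j, (Icc (-2 : ℝ) 2).indicator (fun y => |y| ^ (β - 1)) (x j)) :=
    (PiLp.volume_preserving_ofLp (Fin n)).integrable_comp_of_integrable h1
  refine lt_of_le_of_lt ?_ h2.hasFiniteIntegral
  refine le_trans ?_ (setLIntegral_le_lintegral (Q2 n) _)
  apply setLIntegral_mono' (Q2_meas n)
  intro h hh
  rw [← ENNReal.ofReal_prod_of_nonneg (fun _ _ => by positivity), ← ofReal_norm]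
  apply ENNReal.ofReal_le_ofReal
  refine le_trans (le_of_eq ?_) (le_abs_self _)
  apply Finset.prod_congr rfl
  intro j _
  rw [indicator_of_mem (show h j ∈ Icc (-2 : ℝ) 2 from abs_le.1 (hh j))]

end Pool.Agent.H153R4
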