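import Mathlib
import Pool.Agent.H153R4.Time
set_option autoImplicit false

/-! The second and fourth moments over dyadic time blocks. -/

namespace Pool.Agent.H153R4

open Complex MeasureTheory Set
open scoped ENNReal FourierTransform ComplexConjugate RealInnerProductSpace

lemma meas_FK {m : ℕ} {g : E (m + 1) → ℂ} (hg : Measurable g) :
    Measurable fun q : E (m + 1) × (ℝ × (Fin m → ℝ)) => 𝓕 (kk g q.1) (dd (sv q.2) q.1) := by
  simp only [Real.fourier_eq]
  have h1 : Measurable fun r : (E (m + 1) × (ℝ × (Fin m → ℝ))) × E (m + 1) =>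
      Real.fourierChar (-⟪r.2, dd (sv r.1.2) r.1.1⟫) • kk g r.1.1 r.2 := by
    have hdd : Measurable fun r : (E (m + 1) × (ℝ × (Fin m → ℝ))) × E (m + 1) =>
        dd (sv r.1.2) r.1.1 := by
      unfold dd
      apply (PiLp.volume_preserving_toLp (Fin (m + 1))).measurable.comp
      rw [measurable_pi_iff]
      intro j
      have hs : Measurable fun r : (E (m + 1) × (ℝ × (Fin m → ℝ))) × E (m + 1) =>
          sv r.1.2 j := (measurable_pi_apply j).comp (sv_meas.comp (by fun_prop))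
      exact (measurable_const.mul hs).mul (by fun_prop)
    have hin : Measurable fun r : (E (m + 1) × (ℝ × (Fin m → ℝ))) × E (m + 1) =>
        -⟪r.2, dd (sv r.1.2) r.1.1⟫ := (measurable_snd.inner hdd).neg
    have hk : Measurable fun r : (E (m + 1) × (ℝ × (Fin m → ℝ))) × E (m + 1) =>
        kk g r.1.1 r.2 := by
      unfold kk
      exact (hg.comp (by fun_prop)).mul
        (continuous_conj.measurable.comp (hg.comp measurable_snd))
    have hc : Measurable fun r : (E (m + 1) × (ℝ × (Fin m → ℝ))) × E (m + 1) =>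
        ((Real.fourierChar (-⟪r.2, dd (sv r.1.2) r.1.1⟫) : Circle) : ℂ) :=
      (continuous_subtype_val.comp Real.continuous_fourierChar).measurable.comp hin
    exact hc.mul hk
  exact (h1.stronglyMeasurable.integral_prod_right' (ν := volume)).measurable

lemma meas_Fch {m : ℕ} {g : E (m + 1) → ℂ} (hg : Measurable g) :
    Measurable fun q : (ℝ × (Fin m → ℝ)) × E (m + 1) => 𝓕 (ch (sv q.1) g) q.2 := by
  simp only [Real.fourier_eq]
  have h1 : Measurable fun r : ((ℝ × (Fin m → ℝ)) × E (m + 1)) × E (m + 1) =>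
      Real.fourierChar (-⟪r.2, r.1.2⟫) • ch (sv r.1.1) g r.2 := by
    have hin : Measurable fun r : ((ℝ × (Fin m → ℝ)) × E (m + 1)) × E (m + 1) =>
        -⟪r.2, r.1.2⟫ := by fun_prop
    have hk : Measurable fun r : ((ℝ × (Fin m → ℝ)) × E (m + 1)) × E (m + 1) =>
        ch (sv r.1.1) g r.2 := by
      unfold ch
      have hs : ∀ j, Measurable fun r : ((ℝ × (Fin m → ℝ)) × E (m + 1)) × E (m + 1) =>
          sv r.1.1 j := fun j => (measurable_pi_apply j).comp (sv_meas.comp (by fun_prop))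
      have hsum : Measurable fun r : ((ℝ × (Fin m → ℝ)) × E (m + 1)) × E (m + 1) =>
          -(2 * Real.pi * ∑ j, sv r.1.1 j * r.2 j ^ 2) := by
        refine (measurable_const.mul (Finset.measurable_sum _ fun j _ => ?_)).neg
        exact (hs j).mul (by fun_prop)
      exact (Complex.measurable_exp.comp
        ((Complex.measurable_ofReal.comp hsum).mul measurable_const)).mul
        (hg.comp measurable_snd)
    have hc : Measurable fun r : ((ℝ × (Fin m → ℝ)) × E (m + 1)) × E (m + 1) =>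
        ((Real.fourierChar (-⟪r.2, r.1.2⟫) : Circle) : ℂ) :=
      (continuous_subtype_val.comp Real.continuous_fourierChar).measurable.comp hin
    exact hc.mul hk
  exact (h1.stronglyMeasurable.integral_prod_right' (ν := volume)).measurable

lemma ae_ne_zero (n : ℕ) : ∀ᵐ h : E n, ∀ j, h j ≠ 0 := by
  rw [ae_all_iff]
  intro j
  have h1 : ∀ᵐ y : Fin n → ℝ, y j ≠ 0 := by
    rw [volume_pi]
    exact Measure.ae_eval_ne _ j 0
  exact (PiLp.volume_preserving_ofLp (Fin n)).quasiMeasurePreserving.ae h1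

/-- constant -/
noncomputable def D4 (n : ℕ) (β : ℝ) : ℝ≥0∞ :=
  (∫⁻ h in Q2 n, ∏ j, ENNReal.ofReal (|h j| ^ (β - 1))) *
    (volume (cube n) * ENNReal.ofReal (Real.exp (Real.pi * n) ^ 2))

lemma D4_fin (n : ℕ) (β : ℝ) (hβ : 0 < β) : D4 n β < ⊤ :=
  ENNReal.mul_lt_top (J_fin n β hβ) (ENNReal.mul_lt_top (cube_vol n) ENNReal.ofReal_lt_top)

lemma block4 {m : ℕ} (μ : Measure (Fin m → ℝ)) [SFinite μ] (A α L T β : ℝ) (hA : 0 ≤ A)
    (hL : 1 ≤ L) (hT : 1 ≤ T)
    (hμ : ∀ (a : Fin m → ℝ) (r : ℝ), 0 < r → r ≤ 1 →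
      μ (Icc a (fun j => a j + r)) ≤ ENNReal.ofReal (A * r ^ α))
    (hβ0 : 0 ≤ β) (hβ1 : β ≤ 1) {M : ℝ} {g : E (m + 1) → ℂ} (hg : BS M g) :
    ∫⁻ p, (∫⁻ x, ‖𝓕 (ch (sv p) g) x‖ₑ ^ 4)
        ∂((volume.restrict (ST T)).prod (μ.restrict (Icc (fun _ => -L) (fun _ => L)))) ≤
      ENNReal.ofReal (KT m A α L T β) * D4 (m + 1) β * ENNReal.ofReal (M ^ 4) := by
  set ν := (volume.restrict (ST T)).prod (μ.restrict (Icc (fun _ : Fin m => -L) (fun _ => L)))
    with hν
  simp only [four_ch hg]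
  have hm := (meas_FK (m := m) hg.meas).enorm.pow_const 2
  rw [lintegral_lintegral_swap (by
    exact (hm.comp measurable_swap).aemeasurable)]
  set R : ℝ≥0∞ := volume (cube (m + 1)) *
    ENNReal.ofReal ((Real.exp (Real.pi * (m + 1 : ℕ)) * M ^ 2) ^ 2) with hR
  have hae : ∀ᵐ h : E (m + 1), ∫⁻ p, ‖𝓕 (kk g h) (dd (sv p) h)‖ₑ ^ 2 ∂ν ≤
      (Q2 (m + 1)).indicator (fun h => (ENNReal.ofReal (KT m A α L T β) *
        ∏ j, ENNReal.ofReal (|h j| ^ (β - 1))) * R) h := by
    filter_upwards [ae_ne_zero (m + 1)] with h hh0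
    by_cases hh : h ∈ Q2 (m + 1)
    · rw [indicator_of_mem hh]
      apply loc_int ν (fun p => dd (sv p) h) _ _ _ (hg.kk h)
      · unfold dd
        apply (PiLp.volume_preserving_toLp (Fin (m + 1))).measurable.comp
        rw [measurable_pi_iff]
        intro j
        have hs : Measurable fun p : ℝ × (Fin m → ℝ) => sv p j :=
          (measurable_pi_apply j).comp sv_meas
        exact (measurable_const.mul hs).mul measurable_const
      · intro z
        exact nu_bound μ A α L T β hA hL hT hμ hβ0 hβ1 h z hh hh0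
    · rw [indicator_of_notMem hh]
      have h1 : ∃ j, 2 < |h j| := by
        by_contra hc
        push Not at hc
        exact hh hc
      have h2 : kk g h = 0 := by
        ext z
        exact kk_zero hg h h1 z
      have h3 : ∀ y, 𝓕 (kk g h) y = 0 := by
        intro y
        rw [h2, Real.fourier_eq]
        simp
      simp [h3]
  refine (lintegral_mono_ae hae).trans ?_
  rw [lintegral_indicator (Q2_meas _), lintegral_mul_const _ (by fun_prop),
    lintegral_const_mul _ (by fun_prop)]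
  apply le_of_eq
  have h4 : ENNReal.ofReal ((Real.exp (Real.pi * (m + 1 : ℕ)) * M ^ 2) ^ 2) =
      ENNReal.ofReal (Real.exp (Real.pi * (m + 1 : ℕ)) ^ 2) * ENNReal.ofReal (M ^ 4) := by
    rw [← ENNReal.ofReal_mul (by positivity)]
    congr 1
    ring
  rw [hR, h4, D4]
  ring

lemma block2 {m : ℕ} (μ : Measure (Fin m → ℝ)) [SFinite μ] (L : ℝ) (S : Set ℝ) {M : ℝ}
    {g : E (m + 1) → ℂ} (hg : BS M g) :
    ∫⁻ p, (∫⁻ x, ‖𝓕 (ch (sv p) g) x‖ₑ ^ 2)
        ∂((volume.restrict S).prod (μ.restrict (Icc (fun _ => -L) (fun _ => L)))) ≤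
      volume S * μ (Icc (fun _ => -L) (fun _ => L)) *
        (volume (cube (m + 1)) * ENNReal.ofReal (M ^ 2)) := by
  simp only [two_ch hg]
  rw [lintegral_const]
  have : ((volume.restrict S).prod (μ.restrict (Icc (fun _ : Fin m => -L) (fun _ => L)))) univ =
      volume S * μ (Icc (fun _ : Fin m => -L) (fun _ => L)) := by
    rw [← univ_prod_univ, Measure.prod_prod, Measure.restrict_apply_univ,
      Measure.restrict_apply_univ]
  rw [this, mul_comm]
  gcongr
  exact hg.l2

lemma interp {X : Type*} [MeasurableSpace X] (ν : Measure X) (Φ : X → ℝ≥0∞) (hΦ : Measurable Φ)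
    (q : ℝ) (hq2 : 2 ≤ q) (hq4 : q ≤ 4) :
    ∫⁻ w, Φ w ^ q ∂ν ≤ (∫⁻ w, Φ w ^ 2 ∂ν) ^ ((4 - q) / 2) * (∫⁻ w, Φ w ^ 4 ∂ν) ^ ((q - 2) / 2) := by
  have h := ENNReal.lintegral_mul_norm_pow_le (μ := ν) (hΦ.pow_const 2).aemeasurable
    (hΦ.pow_const 4).aemeasurable (p := (4 - q) / 2) (q := (q - 2) / 2) (by linarith)
    (by linarith) (by ring)
  refine le_trans (le_of_eq ?_) h
  congr 1
  ext w
  rw [← ENNReal.rpow_natCast, ← ENNReal.rpow_natCast, ← ENNReal.rpow_mul, ← ENNReal.rpow_mul,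
    ← ENNReal.rpow_add_of_nonneg _ _ (by push_cast; linarith) (by push_cast; linarith)]
  congr 1
  push_cast
  ring

end Pool.Agent.H153R4
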