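import Mathlib
import Pool.Agent.H153R4.Block
set_option autoImplicit false

/-! Interpolation and summation over the dyadic blocks. -/

namespace Pool.Agent.H153R4

open Complex MeasureTheory Set
open scoped ENNReal FourierTransform ComplexConjugate RealInnerProductSpace

/-- the ball condition -/
def Frost {m : ℕ} (μ : Measure (Fin m → ℝ)) (A α : ℝ) : Prop :=
  ∀ (a : Fin m → ℝ) (r : ℝ), 0 < r → r ≤ 1 →
    μ (Icc a (fun j => a j + r)) ≤ ENNReal.ofReal (A * r ^ α)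

lemma Frost.locfin {m : ℕ} {μ : Measure (Fin m → ℝ)} {A α : ℝ} (h : Frost μ A α) :
    IsLocallyFiniteMeasure μ := by
  refine ⟨fun x => ⟨Icc (fun j => x j - 1 / 2) (fun j => (x j - 1 / 2) + 1), ?_, ?_⟩⟩
  · rw [← pi_univ_Icc]
    apply set_pi_mem_nhds finite_univ
    intro j _
    apply Icc_mem_nhds
    · linarith
    · linarith
  · exact (h (fun j => x j - 1 / 2) 1 one_pos le_rfl).trans_lt ENNReal.ofReal_lt_top

/-- covering number -/
noncomputable def NL (m : ℕ) (L : ℝ) : ℝ := (⌊2 * L⌋₊ + 1 : ℝ) ^ m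

lemma Frost.mass {m : ℕ} {μ : Measure (Fin m → ℝ)} {A α : ℝ} (h : Frost μ A α) (L : ℝ) :
    μ (Icc (fun _ => -L) (fun _ => L)) ≤ ENNReal.ofReal (NL m L * A) := by
  have h1 : Icc (fun _ : Fin m => -L) (fun _ => L) ⊆
      ⋃ k ∈ Fintype.piFinset (fun _ : Fin m => Finset.range (⌊2 * L⌋₊ + 1)),
        Icc (fun j => -L + (k j : ℝ)) (fun j => (-L + (k j : ℝ)) + 1) := by
    intro l hl
    rw [mem_iUnion₂]
    have h0 : ∀ j, 0 ≤ l j + L := fun j => by have := hl.1 j; linarith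
    refine ⟨fun j => ⌊l j + L⌋₊, ?_, ?_⟩
    · rw [Fintype.mem_piFinset]
      intro j
      rw [Finset.mem_range, Nat.lt_succ_iff]
      apply Nat.floor_le_floor
      have := hl.2 j
      linarith
    · refine ⟨fun j => ?_, fun j => ?_⟩
      · have := Nat.floor_le (h0 j)
        simp only
        linarith
      · have := (Nat.lt_floor_add_one (l j + L)).le
        simp only
        linarith
  refine (measure_mono h1).trans ((measure_biUnion_finset_le _ _).trans ?_)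
  refine (Finset.sum_le_card_nsmul _ _ (ENNReal.ofReal A) fun k _ => ?_).trans ?_
  · refine (h _ 1 one_pos le_rfl).trans (le_of_eq ?_)
    rw [Real.one_rpow, mul_one]
  · rw [Fintype.card_piFinset, Finset.prod_const, Finset.card_range, Finset.card_univ,
      Fintype.card_fin, nsmul_eq_mul, ENNReal.ofReal_mul (by unfold NL; positivity)]
    gcongr
    unfold NL
    rw [ENNReal.ofReal_pow (by positivity)]
    push_cast
    apply le_of_eq
    congr 1
    rw [ENNReal.ofReal_add (by positivity) (by positivity), ENNReal.ofReal_natCast,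
      ENNReal.ofReal_one]

lemma Frost.restr {m : ℕ} {μ : Measure (Fin m → ℝ)} {A α : ℝ} (h : Frost μ A α)
    (S : Set (Fin m → ℝ)) : Frost (μ.restrict S) A α :=
  fun a r h1 h2 => (Measure.restrict_apply_le _ _).trans (h a r h1 h2)

/-- time-parameter integral of the `q`-th power -/
noncomputable def II {m : ℕ} (μ : Measure (Fin m → ℝ)) (L q : ℝ) (S : Set ℝ)
    (g : E (m + 1) → ℂ) : ℝ≥0∞ :=
  ∫⁻ p, (∫⁻ x, ‖𝓕 (ch (sv p) g) x‖ₑ ^ q)
    ∂((volume.restrict S).prod (μ.restrict (Icc (fun _ => -L) (fun _ => L))))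

lemma II_interp {m : ℕ} (μ : Measure (Fin m → ℝ)) [SFinite μ] (L q : ℝ) (hq2 : 2 ≤ q)
    (hq4 : q ≤ 4) (S : Set ℝ) {g : E (m + 1) → ℂ} (hg : Measurable g) (X2 X4 : ℝ≥0∞)
    (h2 : ∫⁻ p, (∫⁻ x, ‖𝓕 (ch (sv p) g) x‖ₑ ^ 2)
      ∂((volume.restrict S).prod (μ.restrict (Icc (fun _ => -L) (fun _ => L)))) ≤ X2)
    (h4 : ∫⁻ p, (∫⁻ x, ‖𝓕 (ch (sv p) g) x‖ₑ ^ 4)
      ∂((volume.restrict S).prod (μ.restrict (Icc (fun _ => -L) (fun _ => L)))) ≤ X4) :
    II μ L q S g ≤ X2 ^ ((4 - q) / 2) * X4 ^ ((q - 2) / 2) := by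
  set ν := (volume.restrict S).prod (μ.restrict (Icc (fun _ : Fin m => -L) (fun _ => L))) with hν
  have hm := (meas_Fch (m := m) hg).enorm
  have h := interp (ν.prod volume) (fun w : (ℝ × (Fin m → ℝ)) × E (m + 1) =>
    ‖𝓕 (ch (sv w.1) g) w.2‖ₑ) hm q hq2 hq4
  rw [lintegral_prod _ (hm.pow_const q).aemeasurable,
    lintegral_prod _ (hm.pow_const 2).aemeasurable,
    lintegral_prod _ (hm.pow_const 4).aemeasurable] at h
  unfold II
  refine h.trans ?_
  gcongr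

/-- constant -/
noncomputable def CA (m : ℕ) (A L q : ℝ) : ℝ :=
  (2 * (NL m L * A)) ^ ((4 - q) / 2) * (2 * A * cL L ^ m) ^ ((q - 2) / 2)

lemma const_eq (m : ℕ) (A α L q β T : ℝ) (hA : 0 ≤ A) (hL : 1 ≤ L) (hT : 0 < T) :
    (2 * T * (NL m L * A)) ^ ((4 - q) / 2) * (KT m A α L T β) ^ ((q - 2) / 2) =
      CA m A L q * T ^ ((4 - q) / 2 - (α - (m + 1) * β) * ((q - 2) / 2)) := by
  have hN : 0 ≤ NL m L := by unfold NL; positivity
  have hc : 0 ≤ cL L := by unfold cL; positivity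
  have e1 : KT m A α L T β = (2 * A * cL L ^ m) * T ^ (-(α - (m + 1) * β)) := by
    unfold KT
    rw [mul_pow, ← Real.rpow_natCast (T ^ β), ← Real.rpow_mul hT.le]
    have : T ^ (-(α - (m + 1) * β)) = T ^ β * T ^ (-α) * T ^ (β * (m : ℝ)) := by
      rw [← Real.rpow_add hT, ← Real.rpow_add hT]
      congr 1
      ring
    rw [this]
    ring
  have e2 : 2 * T * (NL m L * A) = (2 * (NL m L * A)) * T := by ring
  rw [e1, e2, Real.mul_rpow (x := 2 * (NL m L * A)) (y := T) (by positivity) hT.le,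
    Real.mul_rpow (x := 2 * A * cL L ^ m) (by positivity) (by positivity),
    ← Real.rpow_mul hT.le, sub_eq_add_neg ((4 - q) / 2), Real.rpow_add hT, neg_mul]
  unfold CA
  ring

lemma block_q {m : ℕ} (μ : Measure (Fin m → ℝ)) [SFinite μ] (A α L T β q : ℝ) (hA : 0 ≤ A)
    (hL : 1 ≤ L) (hT : 1 ≤ T) (hμ : Frost μ A α) (hβ0 : 0 ≤ β) (hβ1 : β ≤ 1)
    (hq2 : 2 ≤ q) (hq4 : q ≤ 4)
    {M : ℝ} {g : E (m + 1) → ℂ} (hg : BS M g) :
    II μ L q (ST T) g ≤
      ENNReal.ofReal (CA m A L q * T ^ ((4 - q) / 2 - (α - (m + 1) * β) * ((q - 2) / 2))) *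
      ((volume (cube (m + 1))) ^ ((4 - q) / 2) * (D4 (m + 1) β) ^ ((q - 2) / 2)) *
        ENNReal.ofReal M ^ q := by
  have hT0 : 0 < T := by linarith
  have hM := hg.M0
  have hN : 0 ≤ NL m L := by unfold NL; positivity
  have hc : 0 ≤ cL L := by unfold cL; positivity
  have hq0 : 0 ≤ (4 - q) / 2 := by linarith
  have hq0' : 0 ≤ (q - 2) / 2 := by linarith
  have hKT : 0 ≤ KT m A α L T β := by unfold KT; positivity
  have h2 : ∫⁻ p, (∫⁻ x, ‖𝓕 (ch (sv p) g) x‖ₑ ^ 2)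
      ∂((volume.restrict (ST T)).prod (μ.restrict (Icc (fun _ => -L) (fun _ => L)))) ≤
      ENNReal.ofReal (2 * T * (NL m L * A)) *
        (volume (cube (m + 1)) * ENNReal.ofReal (M ^ 2)) := by
    refine (block2 μ L (ST T) hg).trans ?_
    rw [ENNReal.ofReal_mul (p := 2 * T) (by positivity)]
    gcongr
    · exact ST_vol T hT0.le
    · exact hμ.mass L
  have h4 := block4 μ A α L T β hA hL hT hμ hβ0 hβ1 hg
  refine (II_interp μ L q hq2 hq4 (ST T) hg.meas _ _ h2 h4).trans (le_of_eq ?_)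
  rw [← const_eq m A α L q β T hA hL hT0]
  rw [ENNReal.mul_rpow_of_nonneg (ENNReal.ofReal (2 * T * (NL m L * A)))
      (volume (cube (m + 1)) * ENNReal.ofReal (M ^ 2)) hq0,
    ENNReal.mul_rpow_of_nonneg (volume (cube (m + 1))) (ENNReal.ofReal (M ^ 2)) hq0,
    ENNReal.mul_rpow_of_nonneg (ENNReal.ofReal (KT m A α L T β) * D4 (m + 1) β)
      (ENNReal.ofReal (M ^ 4)) hq0',
    ENNReal.mul_rpow_of_nonneg (ENNReal.ofReal (KT m A α L T β)) (D4 (m + 1) β) hq0',
    ENNReal.ofReal_mul (p := (2 * T * (NL m L * A)) ^ ((4 - q) / 2)) (by positivity),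
    ENNReal.ofReal_rpow_of_nonneg (by positivity) hq0,
    ENNReal.ofReal_rpow_of_nonneg hKT hq0']
  have e3 : ENNReal.ofReal (M ^ 2) ^ ((4 - q) / 2) * ENNReal.ofReal (M ^ 4) ^ ((q - 2) / 2) =
      ENNReal.ofReal M ^ q := by
    rw [ENNReal.ofReal_pow hM, ENNReal.ofReal_pow hM, ← ENNReal.rpow_natCast,
      ← ENNReal.rpow_natCast, ← ENNReal.rpow_mul, ← ENNReal.rpow_mul,
      ← ENNReal.rpow_add_of_nonneg _ _ (by push_cast; linarith) (by push_cast; linarith)]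
    congr 1
    push_cast
    ring
  rw [← e3]
  generalize ENNReal.ofReal (M ^ 2) ^ ((4 - q) / 2) = x1
  generalize ENNReal.ofReal (M ^ 4) ^ ((q - 2) / 2) = x2
  generalize ENNReal.ofReal ((2 * T * (NL m L * A)) ^ ((4 - q) / 2)) = x3
  generalize ENNReal.ofReal (KT m A α L T β ^ ((q - 2) / 2)) = x4
  generalize volume (cube (m + 1)) ^ ((4 - q) / 2) = x5
  generalize D4 (m + 1) β ^ ((q - 2) / 2) = x6
  ring

end Pool.Agent.H153R4
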