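import Mathlib
import Pool.Agent.H153R4.Sum
set_option autoImplicit false

/-! The global estimate. -/

namespace Pool.Agent.H153R4

open Complex MeasureTheory Set
open scoped ENNReal FourierTransform ComplexConjugate RealInnerProductSpace

lemma Fbd_e {n : ℕ} {M : ℝ} {g : E n → ℂ} (hg : BS M g) (s : Fin n → ℝ) (x : E n) :
    ‖𝓕 (ch s g) x‖ₑ ≤ volume (cube n) * ENNReal.ofReal M := by
  rw [← ofReal_norm]
  refine (ENNReal.ofReal_le_ofReal ((hg.ch s).fbd x)).trans (le_of_eq ?_)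
  rw [ENNReal.ofReal_mul ENNReal.toReal_nonneg, ENNReal.ofReal_toReal (cube_vol n).ne]

/-- the inner integral -/
noncomputable def HH {m : ℕ} (μ : Measure (Fin m → ℝ)) (L q : ℝ) (g : E (m + 1) → ℂ) (t : ℝ) :
    ℝ≥0∞ :=
  ∫⁻ l in Icc (fun _ => -L) (fun _ => L), (∫⁻ x, ‖𝓕 (ch (sv (t, l)) g) x‖ₑ ^ q) ∂μ

lemma G_meas {m : ℕ} (q : ℝ) {g : E (m + 1) → ℂ} (hg : Measurable g) :
    Measurable fun p : ℝ × (Fin m → ℝ) => ∫⁻ x, ‖𝓕 (ch (sv p) g) x‖ₑ ^ q :=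
  ((meas_Fch (m := m) hg).enorm.pow_const q).lintegral_prod_right'

lemma II_eq {m : ℕ} (μ : Measure (Fin m → ℝ)) [SFinite μ] (L q : ℝ) (S : Set ℝ)
    {g : E (m + 1) → ℂ} (hg : Measurable g) :
    II μ L q S g = ∫⁻ t in S, HH μ L q g t := by
  unfold II HH
  rw [lintegral_prod _ (G_meas q hg).aemeasurable]

lemma II_univ {m : ℕ} (μ : Measure (Fin m → ℝ)) [SFinite μ] (L q : ℝ)
    {g : E (m + 1) → ℂ} (hg : Measurable g) :
    II μ L q univ g ≤ II μ L q (Icc (-1) 1) g + ∑' j : ℕ, II μ L q (ST (2 ^ j)) g := by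
  simp only [II_eq μ L q _ hg]
  have h1 : (univ : Set ℝ) ⊆ Icc (-1) 1 ∪ ⋃ j : ℕ, ST (2 ^ j) := by
    intro t _
    by_cases ht : |t| ≤ 1
    · left
      exact abs_le.1 ht
    · right
      push Not at ht
      obtain ⟨j, hj1, hj2⟩ := exists_nat_pow_near ht.le (by norm_num : (1 : ℝ) < 2)
      rw [mem_iUnion]
      refine ⟨j, hj1, ?_⟩
      rw [pow_succ] at hj2
      linarith
  refine (lintegral_mono_set h1).trans ((lintegral_union_le _ _ _).trans ?_)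
  gcongr
  exact lintegral_iUnion_le _ _

lemma pow_bd {n : ℕ} {M : ℝ} {g : E n → ℂ} (hg : BS M g) (q q0 : ℝ) (hq0 : 0 ≤ q0)
    (hq : q0 ≤ q) (s : Fin n → ℝ) (x : E n) :
    ‖𝓕 (ch s g) x‖ₑ ^ q ≤
      (volume (cube n) * ENNReal.ofReal M) ^ (q - q0) * ‖𝓕 (ch s g) x‖ₑ ^ q0 := by
  have h1 := Fbd_e hg s x
  have h2 : q - q0 + q0 = q := by ring
  have h3 : 0 ≤ q - q0 := by linarith
  generalize ‖𝓕 (ch s g) x‖ₑ = y at *
  calc y ^ q = y ^ (q - q0) * y ^ q0 := by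
        rw [← ENNReal.rpow_add_of_nonneg _ _ h3 hq0, h2]
    _ ≤ _ := mul_le_mul' (ENNReal.rpow_le_rpow h1 h3) le_rfl

lemma II_mono_q {m : ℕ} (μ : Measure (Fin m → ℝ)) (L q q0 : ℝ) (hq0 : 0 ≤ q0)
    (hq : q0 ≤ q) (S : Set ℝ) {M : ℝ} {g : E (m + 1) → ℂ} (hg : BS M g) :
    II μ L q S g ≤ (volume (cube (m + 1)) * ENNReal.ofReal M) ^ (q - q0) * II μ L q0 S g := by
  have hG : ∀ p : ℝ × (Fin m → ℝ), ∫⁻ x, ‖𝓕 (ch (sv p) g) x‖ₑ ^ q ≤
      (volume (cube (m + 1)) * ENNReal.ofReal M) ^ (q - q0) *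
        ∫⁻ x, ‖𝓕 (ch (sv p) g) x‖ₑ ^ q0 := by
    intro p
    have hm : Measurable fun x : E (m + 1) => ‖𝓕 (ch (sv p) g) x‖ₑ ^ q0 :=
      (F_cont (hg.ch (sv p))).measurable.enorm.pow_const q0
    rw [← lintegral_const_mul _ hm]
    exact lintegral_mono fun x => pow_bd hg q q0 hq0 hq (sv p) x
  unfold II
  exact (lintegral_mono hG).trans (le_of_eq (lintegral_const_mul _ (G_meas q0 hg.meas)))

lemma choose_beta (m : ℕ) (α q : ℝ) (hα : 0 < α) (hq : 2 + 2 / (1 + α) < q) :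
    ∃ β : ℝ, 0 < β ∧ β ≤ 1 ∧ (4 - q) / 2 - (α - (m + 1) * β) * ((q - 2) / 2) < 0 := by
  have h1 : 0 < 1 + α := by linarith
  have hq2 : 2 < q := by
    have : 0 < 2 / (1 + α) := by positivity
    linarith
  have hδ : 0 < α * (q - 2) - (4 - q) := by
    have h2 : 2 / (1 + α) < q - 2 := by linarith
    rw [div_lt_iff₀ h1] at h2
    nlinarith
  set δ := α * (q - 2) - (4 - q) with hδd
  have hd : 0 < 2 * ((m + 1 : ℝ) * (q - 2)) := by
    have : 0 < q - 2 := by linarith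
    positivity
  refine ⟨min 1 (δ / (2 * ((m + 1 : ℝ) * (q - 2)))), lt_min one_pos (by positivity),
    min_le_left _ _, ?_⟩
  have h3 : min 1 (δ / (2 * ((m + 1 : ℝ) * (q - 2)))) * (2 * ((m + 1 : ℝ) * (q - 2))) ≤ δ := by
    rw [← le_div_iff₀ hd]
    exact min_le_right _ _
  nlinarith

theorem main_low (m : ℕ) (α q : ℝ) (hα : 0 < α) (hq : 2 + 2 / (1 + α) < q) (hq4 : q ≤ 4)
    (L A : ℝ) (hL : 1 ≤ L) (hA : 0 ≤ A) :
    ∃ C : ℝ≥0∞, C < ⊤ ∧ ∀ μ : Measure (Fin m → ℝ), Frost μ A α →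
      ∀ (M : ℝ) (g : E (m + 1) → ℂ), BS M g → II μ L q univ g ≤ C * ENNReal.ofReal M ^ q := by
  obtain ⟨β, hβ0, hβ1, hβ⟩ := choose_beta m α q hα hq
  have hq2 : 2 ≤ q := by
    have : 0 < 2 / (1 + α) := by positivity
    linarith
  set e : ℝ := (4 - q) / 2 - (α - (m + 1) * β) * ((q - 2) / 2) with he
  set V : ℝ≥0∞ := volume (cube (m + 1)) with hV
  have hVf : V < ⊤ := cube_vol (m + 1)
  set W : ℝ≥0∞ := V ^ ((4 - q) / 2) * (D4 (m + 1) β) ^ ((q - 2) / 2) with hW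
  have hWf : W < ⊤ := ENNReal.mul_lt_top
    (ENNReal.rpow_lt_top_of_nonneg (by linarith) hVf.ne)
    (ENNReal.rpow_lt_top_of_nonneg (by linarith) (D4_fin (m + 1) β hβ0).ne)
  set x : ℝ≥0∞ := ENNReal.ofReal ((2 : ℝ) ^ e) with hx
  have hx1 : x < 1 := by
    rw [hx, ENNReal.ofReal_lt_one]
    exact Real.rpow_lt_one_of_one_lt_of_neg (by norm_num) hβ
  have hCA : 0 ≤ CA m A L q := by
    unfold CA cL NL
    positivity
  have hsum : ∑' j : ℕ, ENNReal.ofReal (CA m A L q * ((2 : ℝ) ^ j) ^ e) =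
      ENNReal.ofReal (CA m A L q) * (1 - x)⁻¹ := by
    rw [← ENNReal.tsum_geometric, ← ENNReal.tsum_mul_left]
    congr 1
    ext j
    rw [ENNReal.ofReal_mul hCA, hx, ← ENNReal.ofReal_pow (by positivity)]
    congr 2
    rw [← Real.rpow_natCast, ← Real.rpow_mul (by norm_num), mul_comm, Real.rpow_mul (by norm_num),
      Real.rpow_natCast]
  refine ⟨V ^ (q - 2) * (ENNReal.ofReal 2 * ENNReal.ofReal (NL m L * A) * V) +
    ENNReal.ofReal (CA m A L q) * (1 - x)⁻¹ * W, ?_, ?_⟩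
  · apply ENNReal.add_lt_top.2 ⟨?_, ?_⟩
    · exact ENNReal.mul_lt_top (ENNReal.rpow_lt_top_of_nonneg (by linarith) hVf.ne)
        (ENNReal.mul_lt_top (ENNReal.mul_lt_top ENNReal.ofReal_lt_top ENNReal.ofReal_lt_top) hVf)
    · refine ENNReal.mul_lt_top (ENNReal.mul_lt_top ENNReal.ofReal_lt_top ?_) hWf
      rw [ENNReal.inv_lt_top]
      exact tsub_pos_of_lt hx1
  intro μ hμ M g hg
  have := hμ.locfin
  have hM := hg.M0
  refine (II_univ μ L q hg.meas).trans ?_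
  rw [add_mul]
  apply add_le_add
  · refine (II_mono_q μ L q 2 (by norm_num) hq2 (Icc (-1) 1) hg).trans ?_
    have h2 : II μ L 2 (Icc (-1) 1) g ≤ ENNReal.ofReal 2 * ENNReal.ofReal (NL m L * A) *
        (V * ENNReal.ofReal (M ^ 2)) := by
      have h3 := block2 μ L (Icc (-1) 1) hg
      have h4 : II μ L 2 (Icc (-1) 1) g = ∫⁻ p, (∫⁻ x, ‖𝓕 (ch (sv p) g) x‖ₑ ^ 2)
        ∂((volume.restrict (Icc (-1) 1)).prod (μ.restrict (Icc (fun _ => -L) (fun _ => L)))) := by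
        unfold II
        simp only [ENNReal.rpow_ofNat]
      rw [h4]
      refine h3.trans ?_
      gcongr
      · rw [Real.volume_Icc]
        norm_num
      · exact hμ.mass L
    refine (mul_le_mul' le_rfl h2).trans (le_of_eq ?_)
    rw [ENNReal.mul_rpow_of_nonneg _ _ (by linarith : (0 : ℝ) ≤ q - 2)]
    have e3 : ENNReal.ofReal M ^ (q - 2) * ENNReal.ofReal (M ^ 2) = ENNReal.ofReal M ^ q := by
      rw [ENNReal.ofReal_pow hM, ← ENNReal.rpow_natCast,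
        ← ENNReal.rpow_add_of_nonneg _ _ (by linarith) (by norm_num)]
      congr 1
      push_cast
      ring
    rw [← e3]
    ring
  · rw [← hsum, ← ENNReal.tsum_mul_right, ← ENNReal.tsum_mul_right]
    apply ENNReal.tsum_le_tsum
    intro j
    exact block_q μ A α L (2 ^ j) β q hA hL (one_le_pow₀ (by norm_num)) hμ hβ0.le hβ1 hq2 hq4 hg

theorem main_all (m : ℕ) (α q : ℝ) (hα : 0 < α) (hq : 2 + 2 / (1 + α) < q)
    (L A : ℝ) (hL : 1 ≤ L) (hA : 0 ≤ A) :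
    ∃ C : ℝ≥0∞, C < ⊤ ∧ ∀ μ : Measure (Fin m → ℝ), Frost μ A α →
      ∀ (M : ℝ) (g : E (m + 1) → ℂ), BS M g → II μ L q univ g ≤ C * ENNReal.ofReal M ^ q := by
  rcases le_or_gt q 4 with hq4 | hq4
  · exact main_low m α q hα hq hq4 L A hL hA
  · have h4 : 2 + 2 / (1 + α) < 4 := by
      have h1 : 0 < 1 + α := by linarith
      have : 2 / (1 + α) < 2 := by
        rw [div_lt_iff₀ h1]
        linarith
      linarith
    obtain ⟨C, hC, h⟩ := main_low m α 4 hα h4 le_rfl L A hL hA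
    refine ⟨(volume (cube (m + 1))) ^ (q - 4) * C, ENNReal.mul_lt_top
      (ENNReal.rpow_lt_top_of_nonneg (by linarith) (cube_vol _).ne) hC, ?_⟩
    intro μ hμ M g hg
    have := hμ.locfin
    refine (II_mono_q μ L q 4 (by norm_num) hq4.le univ hg).trans ?_
    refine (mul_le_mul' le_rfl (h μ hμ M g hg)).trans (le_of_eq ?_)
    rw [ENNReal.mul_rpow_of_nonneg _ _ (by linarith : (0 : ℝ) ≤ q - 4)]
    have e3 : ENNReal.ofReal M ^ (q - 4) * ENNReal.ofReal M ^ (4 : ℝ) = ENNReal.ofReal M ^ q := by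
      rw [← ENNReal.rpow_add_of_nonneg _ _ (by linarith) (by norm_num)]
      congr 1
      ring
    rw [← e3]
    ring

end Pool.Agent.H153R4
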