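import Mathlib
import Pool.Agent.H153R4.Main
set_option autoImplicit false

/-! Dilates: push forward of the measure and change of variables. -/

namespace Pool.Agent.H153R4

open Complex MeasureTheory Set
open scoped ENNReal FourierTransform ComplexConjugate RealInnerProductSpace

lemma Frost.box {m : ℕ} {μ : Measure (Fin m → ℝ)} {A α : ℝ} (h : Frost μ A α) (K : ℝ)
    (a : Fin m → ℝ) (r : ℝ) (hr0 : 0 < r) (hr1 : r ≤ 1) :
    μ (Icc a (fun j => a j + K * r)) ≤ ENNReal.ofReal ((⌊K⌋₊ + 1 : ℝ) ^ m * (A * r ^ α)) := by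
  have h1 : Icc a (fun j => a j + K * r) ⊆
      ⋃ k ∈ Fintype.piFinset (fun _ : Fin m => Finset.range (⌊K⌋₊ + 1)),
        Icc (fun j => a j + (k j : ℝ) * r) (fun j => (a j + (k j : ℝ) * r) + r) := by
    intro l hl
    rw [mem_iUnion₂]
    have h0 : ∀ j, 0 ≤ (l j - a j) / r := fun j => by
      have := hl.1 j
      apply div_nonneg _ hr0.le
      linarith
    refine ⟨fun j => ⌊(l j - a j) / r⌋₊, ?_, ?_⟩
    · rw [Fintype.mem_piFinset]
      intro j
      rw [Finset.mem_range, Nat.lt_succ_iff]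
      apply Nat.floor_le_floor
      have := hl.2 j
      simp only at this
      rw [div_le_iff₀ hr0]
      linarith
    · refine ⟨fun j => ?_, fun j => ?_⟩
      · have := Nat.floor_le (h0 j)
        rw [le_div_iff₀ hr0] at this
        simp only
        linarith
      · have := (Nat.lt_floor_add_one ((l j - a j) / r)).le
        rw [div_le_iff₀ hr0] at this
        simp only
        linarith
  refine (measure_mono h1).trans ((measure_biUnion_finset_le _ _).trans ?_)
  refine (Finset.sum_le_card_nsmul _ _ (ENNReal.ofReal (A * r ^ α)) fun k _ => h _ r hr0 hr1).trans ?_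
  rw [Fintype.card_piFinset, Finset.prod_const, Finset.card_range, Finset.card_univ,
      Fintype.card_fin, nsmul_eq_mul,
      ENNReal.ofReal_mul (p := (⌊K⌋₊ + 1 : ℝ) ^ m) (by positivity)]
  gcongr
  rw [ENNReal.ofReal_pow (by positivity)]
  push_cast
  apply le_of_eq
  congr 1
  rw [ENNReal.ofReal_add (by positivity) (by positivity), ENNReal.ofReal_natCast,
    ENNReal.ofReal_one]

/-- the parameter map -/
noncomputable def rho {m : ℕ} (b l : Fin m → ℝ) : Fin m → ℝ := fun j => b j / (l j) ^ 2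

lemma rho_meas {m : ℕ} (b : Fin m → ℝ) : Measurable (rho b) := by
  unfold rho
  fun_prop

lemma one_dim_lip (b x y L : ℝ) (hb : b ≠ 0) (hx : 1 ≤ x) (hy : 1 ≤ y) (hxL : x ≤ L)
    (hyL : y ≤ L) (r : ℝ) (h : |b / x ^ 2 - b / y ^ 2| ≤ r) : |x - y| ≤ L ^ 4 * r / |b| := by
  have hb0 : 0 < |b| := abs_pos.2 hb
  have hx0 : 0 < x := by linarith
  have hy0 : 0 < y := by linarith
  have hL0 : 0 < L := by linarith
  have e1 : b / x ^ 2 - b / y ^ 2 = b * ((y - x) * (y + x)) / (x ^ 2 * y ^ 2) := by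
    field_simp
    ring
  rw [e1, abs_div, abs_mul, abs_mul, abs_of_pos (by positivity : 0 < x ^ 2 * y ^ 2),
    abs_of_pos (by positivity : 0 < y + x), div_le_iff₀ (by positivity)] at h
  rw [le_div_iff₀ hb0]
  have h2 : x ^ 2 * y ^ 2 ≤ L ^ 4 := by
    calc x ^ 2 * y ^ 2 ≤ L ^ 2 * L ^ 2 := by gcongr
      _ = L ^ 4 := by ring
  have hr : 0 ≤ r := by
    by_contra hc
    push Not at hc
    have : 0 ≤ |b| * (|y - x| * (y + x)) := by positivity
    nlinarith [mul_pos (pow_pos hx0 2) (pow_pos hy0 2)]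
  rw [abs_sub_comm]
  calc |y - x| * |b| ≤ |b| * (|y - x| * (y + x)) := by
        have h3 : 1 ≤ y + x := by linarith
        have h4 : 0 ≤ |y - x| * |b| := by positivity
        nlinarith
    _ ≤ r * (x ^ 2 * y ^ 2) := h
    _ ≤ L ^ 4 * r := by nlinarith

lemma Frost.push {m : ℕ} {μ : Measure (Fin m → ℝ)} {A α : ℝ} (h : Frost μ A α) (L B : ℝ)
    (hL : 1 ≤ L) (b : Fin m → ℝ) (hb : ∀ j, b j ≠ 0) (hB : ∀ j, |b j|⁻¹ ≤ B) :
    Frost (Measure.map (rho b) (μ.restrict (Icc (fun _ => 1) (fun _ => L))))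
      ((⌊2 * (B * L ^ 4)⌋₊ + 1 : ℝ) ^ m * A) α := by
  intro a r hr0 hr1
  rw [Measure.map_apply (rho_meas b) measurableSet_Icc,
    Measure.restrict_apply ((rho_meas b) measurableSet_Icc)]
  rcases (rho b ⁻¹' Icc a (fun j => a j + r) ∩ Icc (fun _ => 1) (fun _ => L)).eq_empty_or_nonempty
    with he | ⟨l0, hl0, hl0'⟩
  · rw [he, measure_empty]
    exact zero_le
  · have hsub : rho b ⁻¹' Icc a (fun j => a j + r) ∩ Icc (fun _ => 1) (fun _ => L) ⊆
        Icc (fun j => l0 j - B * L ^ 4 * r)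
          (fun j => (l0 j - B * L ^ 4 * r) + (2 * (B * L ^ 4)) * r) := by
      rintro l ⟨hl, hl'⟩
      have hd : ∀ j, |l j - l0 j| ≤ B * L ^ 4 * r := by
        intro j
        have h1 : |b j / (l j) ^ 2 - b j / (l0 j) ^ 2| ≤ r := by
          have a1 := hl.1 j
          have a2 := hl.2 j
          have a3 := hl0.1 j
          have a4 := hl0.2 j
          simp only [rho] at a1 a2 a3 a4
          rw [abs_le]
          constructor <;> linarith
        refine (one_dim_lip (b j) (l j) (l0 j) L (hb j) (hl'.1 j) (hl0'.1 j) (hl'.2 j)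
          (hl0'.2 j) r h1).trans ?_
        rw [div_eq_mul_inv]
        have : L ^ 4 * r * |b j|⁻¹ ≤ L ^ 4 * r * B := by
          apply mul_le_mul_of_nonneg_left (hB j)
          positivity
        linarith
      refine ⟨fun j => ?_, fun j => ?_⟩
      · have := (abs_le.1 (hd j)).1
        simp only
        linarith
      · have := (abs_le.1 (hd j)).2
        simp only
        linarith
    refine (measure_mono hsub).trans ((h.box (2 * (B * L ^ 4)) _ r hr0 hr1).trans (le_of_eq ?_))
    congr 1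
    ring

end Pool.Agent.H153R4
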