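import Mathlib
import Pool.Agent.H153R4.Par
set_option autoImplicit false

/-! Change of variables for the extension operators. -/

namespace Pool.Agent.H153R4

open Complex MeasureTheory Set
open scoped ENNReal FourierTransform ComplexConjugate RealInnerProductSpace

/-- phase -/
noncomputable def ph {n : ℕ} (c : Fin n → ℝ) (ξ : Fin n → ℝ) (y : (Fin n → ℝ) × ℝ) : ℝ :=
  ∑ j, ξ j * y.1 j + (∑ j, c j * ξ j ^ 2) * y.2

/-- extension operator over the whole space -/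
noncomputable def ext0 {n : ℕ} (c : Fin n → ℝ) (g : (Fin n → ℝ) → ℂ) (y : (Fin n → ℝ) × ℝ) : ℂ :=
  ∫ ξ, g ξ * cexp (2 * Real.pi * I * (ph c ξ y : ℂ))

lemma emb_ofLp (n : ℕ) : MeasurableEmbedding (@WithLp.ofLp 2 (Fin n → ℝ)) :=
  (MeasurableEquiv.toLp 2 (Fin n → ℝ)).symm.measurableEmbedding

lemma ext0_eq {n : ℕ} (c : Fin n → ℝ) (g : (Fin n → ℝ) → ℂ) (y : (Fin n → ℝ) × ℝ) :
    ext0 c g y = 𝓕 (ch (fun j => -(y.2 * c j)) (fun z : E n => g z.ofLp))
      (WithLp.toLp 2 fun j => -y.1 j) := by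
  unfold ext0
  rw [← (PiLp.volume_preserving_ofLp (Fin n)).integral_comp (emb_ofLp n), Real.fourier_eq']
  apply integral_congr_ae
  refine ae_of_all _ fun z => ?_
  simp only [ch, smul_eq_mul]
  have e1 : cexp (2 * Real.pi * I * (ph c z.ofLp y : ℂ)) =
      cexp (((-2 * Real.pi * ⟪z, (WithLp.toLp 2 fun j => -y.1 j : E n)⟫ : ℝ) : ℂ) * I) *
        cexp (((-(2 * Real.pi * ∑ j, (-(y.2 * c j)) * z j ^ 2) : ℝ) : ℂ) * I) := by
    rw [← Complex.exp_add]
    congr 1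
    have e2 : 2 * Real.pi * ph c z.ofLp y =
        (-2 * Real.pi * ⟪z, (WithLp.toLp 2 fun j => -y.1 j : E n)⟫) +
          (-(2 * Real.pi * ∑ j, (-(y.2 * c j)) * z j ^ 2)) := by
      rw [PiLp.inner_apply]
      simp only [ph, RCLike.inner_apply, conj_trivial, neg_mul, mul_neg, Finset.sum_neg_distrib,
        neg_neg]
      have a1 : ∑ j, y.1 j * z j = ∑ j, z j * y.1 j := Finset.sum_congr rfl fun j _ => mul_comm _ _
      have a2 : ∑ j, y.2 * c j * z j ^ 2 = (∑ j, c j * z j ^ 2) * y.2 := by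
        rw [Finset.sum_mul]
        exact Finset.sum_congr rfl fun j _ => by ring
      rw [a1, a2]
      ring
    have e3 := congrArg (fun r : ℝ => (r : ℂ) * I) e2
    simp only [Complex.ofReal_add, Complex.ofReal_mul, Complex.ofReal_ofNat] at e3 ⊢
    linear_combination e3
  rw [e1]
  ring

/-- the dilation -/
lemma dil_map {n : ℕ} (d : Fin n → ℝ) (hd : ∀ j, 1 ≤ d j) :
    ∃ κ : ℝ≥0∞, κ ≠ 0 ∧ κ ≤ 1 ∧
      Measure.map (fun ξ : Fin n → ℝ => d * ξ) volume = κ • (volume : Measure (Fin n → ℝ)) := by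
  have hdet : (Matrix.diagonal d).det = ∏ j, d j := Matrix.det_diagonal
  have hpos : 1 ≤ ∏ j, d j := by
    calc (1 : ℝ) = ∏ j : Fin n, (1 : ℝ) := by simp
      _ ≤ ∏ j, d j := Finset.prod_le_prod (fun _ _ => zero_le_one) fun j _ => hd j
  have h := Real.smul_map_diagonal_volume_pi (D := d) (by rw [hdet]; positivity)
  rw [hdet, abs_of_pos (by positivity)] at h
  have hfun : (Matrix.toLin' (Matrix.diagonal d) : (Fin n → ℝ) → (Fin n → ℝ)) =
      fun ξ => d * ξ := by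
    ext ξ j
    rw [Matrix.toLin'_apply, Matrix.mulVec_diagonal]
    rfl
  rw [hfun] at h
  set D : ℝ≥0∞ := ENNReal.ofReal (∏ j, d j) with hD
  have hD0 : D ≠ 0 := by
    rw [hD, Ne, ENNReal.ofReal_eq_zero]
    push Not
    positivity
  have hDt : D ≠ ⊤ := ENNReal.ofReal_ne_top
  refine ⟨D⁻¹, ENNReal.inv_ne_zero.2 hDt, ?_, ?_⟩
  · rw [ENNReal.inv_le_one, hD, ENNReal.one_le_ofReal]
    exact hpos
  · calc Measure.map (fun ξ : Fin n → ℝ => d * ξ) volume
        = (D⁻¹ * D) • Measure.map (fun ξ : Fin n → ℝ => d * ξ) volume := by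
          rw [ENNReal.inv_mul_cancel hD0 hDt, one_smul]
      _ = D⁻¹ • (D • Measure.map (fun ξ : Fin n → ℝ => d * ξ) volume) := by rw [smul_smul]
      _ = _ := by rw [h]

lemma dil_emb {n : ℕ} (d : Fin n → ℝ) (hd : ∀ j, 1 ≤ d j) :
    MeasurableEmbedding (fun ξ : Fin n → ℝ => d * ξ) := by
  apply Measurable.measurableEmbedding
  · fun_prop
  · intro x y hxy
    ext j
    have h1 := congrFun hxy j
    simp only [Pi.mul_apply] at h1
    have h2 := hd j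
    exact mul_left_cancel₀ (by linarith : d j ≠ 0) h1

lemma ph_dil {n : ℕ} (c d ξ : Fin n → ℝ) (hd : ∀ j, 1 ≤ d j) (y : (Fin n → ℝ) × ℝ) :
    ph c ξ y = ph (fun j => c j / d j ^ 2) (d * ξ) (y.1 / d, y.2) := by
  unfold ph
  have h0 : ∀ j, d j ≠ 0 := fun j => by have := hd j; linarith
  congr 1
  · apply Finset.sum_congr rfl
    intro j _
    simp only [Pi.mul_apply, Pi.div_apply]
    have := h0 j
    field_simp
  · congr 1
    apply Finset.sum_congr rfl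
    intro j _
    simp only [Pi.mul_apply]
    have := h0 j
    field_simp

lemma ext0_dil {n : ℕ} (c d : Fin n → ℝ) (hd : ∀ j, 1 ≤ d j) (κ : ℝ≥0∞)
    (hκ : Measure.map (fun ξ : Fin n → ℝ => d * ξ) volume = κ • (volume : Measure (Fin n → ℝ)))
    (g : (Fin n → ℝ) → ℂ) (y : (Fin n → ℝ) × ℝ) :
    ext0 c (fun ξ => g (d * ξ)) y =
      κ.toReal * ext0 (fun j => c j / d j ^ 2) g (y.1 / d, y.2) := by
  unfold ext0
  have h1 := (dil_emb d hd).integral_map (μ := volume) (fun η =>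
    g η * cexp (2 * Real.pi * I * (ph (fun j => c j / d j ^ 2) η (y.1 / d, y.2) : ℂ)))
  rw [hκ, integral_smul_measure] at h1
  rw [← Complex.real_smul, h1]
  simp only [ph_dil c d _ hd y]

lemma lint_dil {n : ℕ} (d : Fin n → ℝ) (hd : ∀ j, 1 ≤ d j) (κ : ℝ≥0∞)
    (hκ : Measure.map (fun ξ : Fin n → ℝ => d * ξ) volume = κ • (volume : Measure (Fin n → ℝ)))
    (H : (Fin n → ℝ) → ℝ≥0∞) :
    ∫⁻ x, H x = κ * ∫⁻ x, H (x / d) := by
  have h1 := (dil_emb d hd).lintegral_map (μ := volume) (fun x => H (x / d))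
  rw [hκ, lintegral_smul_measure] at h1
  rw [smul_eq_mul] at h1
  rw [h1]
  congr 1
  ext x
  congr 1
  ext j
  have := hd j
  simp only [Pi.div_apply, Pi.mul_apply]
  field_simp

lemma ext0_meas {n : ℕ} (c : Fin n → ℝ) {g : (Fin n → ℝ) → ℂ} (hg : Measurable g) :
    Measurable (ext0 c g) := by
  unfold ext0
  have h1 : Measurable fun r : ((Fin n → ℝ) × ℝ) × (Fin n → ℝ) =>
      g r.2 * cexp (2 * Real.pi * I * (ph c r.2 r.1 : ℂ)) := by
    have h2 : Measurable fun r : ((Fin n → ℝ) × ℝ) × (Fin n → ℝ) => ph c r.2 r.1 := by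
      unfold ph
      fun_prop
    exact (hg.comp measurable_snd).mul (Complex.measurable_exp.comp
      (measurable_const.mul (Complex.measurable_ofReal.comp h2)))
  exact (h1.stronglyMeasurable.integral_prod_right' (ν := volume)).measurable

lemma lint_refl {n : ℕ} (F : E n → ℝ≥0∞) :
    ∫⁻ x : Fin n → ℝ, F (WithLp.toLp 2 fun j => -x j) = ∫⁻ z, F z := by
  have h1 := lintegral_neg_eq_self (μ := (volume : Measure (Fin n → ℝ)))
    (fun x => F (WithLp.toLp 2 x))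
  have h2 := (PiLp.volume_preserving_toLp (Fin n)).lintegral_comp_emb
    (MeasurableEquiv.toLp 2 (Fin n → ℝ)).measurableEmbedding F
  rw [← h2, ← h1]
  rfl

/-- the space-time norm -/
noncomputable def FF {m : ℕ} (q : ℝ) (G : E (m + 1) → ℂ) (lam : Fin m → ℝ) : ℝ≥0∞ :=
  ∫⁻ t, ∫⁻ z, ‖𝓕 (ch (sv (t, lam)) G) z‖ₑ ^ q

/-- the full dilation vector -/
def dv {m : ℕ} (l : Fin m → ℝ) : Fin (m + 1) → ℝ := Fin.cons 1 l

lemma sv_rel {m : ℕ} (c : Fin (m + 1) → ℝ) (hc : c 0 ≠ 0) (l : Fin m → ℝ) (t : ℝ) :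
    (fun j => -(t * (c j / dv l j ^ 2))) =
      sv (-(t * c 0), rho (fun j => c j.succ / c 0) l) := by
  ext j
  refine Fin.cases ?_ (fun i => ?_) j
  · simp [sv, dv]
  · simp only [sv, dv, Fin.cons_succ, rho]
    field_simp

lemma key_le {m : ℕ} (c : Fin (m + 1) → ℝ) (hc : c 0 ≠ 0) (q : ℝ) (hq : 1 ≤ q) (l : Fin m → ℝ)
    (hl : ∀ j, 1 ≤ l j) {g : (Fin (m + 1) → ℝ) → ℂ} (hg : Measurable g) :
    ∫⁻ y, ‖ext0 c (fun ξ => g (dv l * ξ)) y‖ₑ ^ q ≤
      ENNReal.ofReal |(c 0)⁻¹| * FF q (fun z => g z.ofLp)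
        (rho (fun j => c j.succ / c 0) l) := by
  have hd : ∀ j, 1 ≤ dv l j := by
    intro j
    refine Fin.cases ?_ (fun i => ?_) j
    · simp [dv]
    · simpa [dv] using hl i
  obtain ⟨κ, hκ0, hκ1, hκ⟩ := dil_map (dv l) hd
  have hκt : κ ≠ ⊤ := (hκ1.trans_lt ENNReal.one_lt_top).ne
  set c' : Fin (m + 1) → ℝ := fun j => c j / dv l j ^ 2 with hc'
  have hpt : ∀ y : (Fin (m + 1) → ℝ) × ℝ, ‖ext0 c (fun ξ => g (dv l * ξ)) y‖ₑ ^ q =
      κ ^ q * ‖ext0 c' g (y.1 / dv l, y.2)‖ₑ ^ q := by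
    intro y
    rw [ext0_dil c (dv l) hd κ hκ g y, enorm_mul, ENNReal.mul_rpow_of_nonneg _ _ (by linarith)]
    congr 2
    rw [← ofReal_norm, Complex.norm_real, Real.norm_of_nonneg ENNReal.toReal_nonneg,
      ENNReal.ofReal_toReal hκt]
  simp only [hpt]
  have hdivm : Measurable fun y : (Fin (m + 1) → ℝ) × ℝ => ((y.1 / dv l, y.2) : _ × ℝ) := by
    fun_prop
  have hm : Measurable fun y : (Fin (m + 1) → ℝ) × ℝ => ‖ext0 c' g (y.1 / dv l, y.2)‖ₑ ^ q :=
    (((ext0_meas c' hg).comp hdivm).enorm.pow_const q)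
  rw [lintegral_const_mul _ hm, Measure.volume_eq_prod, lintegral_prod_symm _ hm.aemeasurable]
  have h1 : ∀ t : ℝ, κ ^ q * ∫⁻ x, ‖ext0 c' g (x / dv l, t)‖ₑ ^ q ≤
      ∫⁻ z, ‖𝓕 (ch (sv (-(t * c 0), rho (fun j => c j.succ / c 0) l))
        (fun z : E (m + 1) => g z.ofLp)) z‖ₑ ^ q := by
    intro t
    calc κ ^ q * ∫⁻ x, ‖ext0 c' g (x / dv l, t)‖ₑ ^ q
        ≤ κ * ∫⁻ x, ‖ext0 c' g (x / dv l, t)‖ₑ ^ q := by
          gcongr
          calc κ ^ q ≤ κ ^ (1 : ℝ) := ENNReal.rpow_le_rpow_of_exponent_ge hκ1 hq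
            _ = κ := ENNReal.rpow_one _
      _ = ∫⁻ x, ‖ext0 c' g (x, t)‖ₑ ^ q :=
          (lint_dil (dv l) hd κ hκ (fun x => ‖ext0 c' g (x, t)‖ₑ ^ q)).symm
      _ = _ := by
          simp only [ext0_eq]
          rw [sv_rel c hc l t]
          exact lint_refl (fun z => ‖𝓕 (ch (sv (-(t * c 0), rho (fun j => c j.succ / c 0) l))
            (fun z : E (m + 1) => g z.ofLp)) z‖ₑ ^ q)
  rw [← lintegral_const_mul _ (by
    exact hm.lintegral_prod_left')]
  refine (lintegral_mono h1).trans (le_of_eq ?_)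
  have hG : Measurable fun z : E (m + 1) => g z.ofLp := hg.comp (emb_ofLp (m + 1)).measurable
  have hK : Measurable fun t : ℝ => ∫⁻ z, ‖𝓕 (ch (sv (t, rho (fun j => c j.succ / c 0) l))
        (fun z : E (m + 1) => g z.ofLp)) z‖ₑ ^ q :=
    (G_meas q hG).comp measurable_prodMk_right
  have hc0 : -c 0 ≠ 0 := neg_ne_zero.2 hc
  have h2 := lintegral_map hK (measurable_const_mul (-c 0)) (μ := volume)
  rw [Real.map_volume_mul_left hc0, lintegral_smul_measure, smul_eq_mul] at h2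
  unfold FF
  have h3 : |(-c 0)⁻¹| = |(c 0)⁻¹| := by rw [inv_neg, abs_neg]
  rw [h3] at h2
  rw [h2]
  congr 1
  ext t
  have : -(t * c 0) = -c 0 * t := by ring
  rw [this]

end Pool.Agent.H153R4
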